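import Mathlib

/-!
The classical divisor bound.
-/

namespace Pool.Agent.H5.W

theorem divisor_bound (ε : ℝ) (hε : 0 < ε) : ∃ C : ℝ, 0 < C ∧ ∀ n : ℕ, 1 ≤ n →
    (n.divisors.card : ℝ) ≤ C * (n : ℝ) ^ ε := by
  set L : ℝ := Real.log 2 with hL
  have hLpos : 0 < L := Real.log_pos (by norm_num)
  set K : ℝ := 1 + 1 / (ε * L) with hK
  have hK1 : 1 ≤ K := by
    have : 0 < 1 / (ε * L) := by positivity
    linarith
  set P : ℕ := ⌈(2 : ℝ) ^ (1 / ε)⌉₊ with hP
  refine ⟨K ^ P, by positivity, fun n hn => ?_⟩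
  have hn0 : n ≠ 0 := by omega
  have hcard : (n.divisors.card : ℝ)
      = ∏ p ∈ n.primeFactors, ((n.factorization p : ℝ) + 1) := by
    rw [Nat.card_divisors hn0]; push_cast; rfl
  have hnprod : (n : ℝ) ^ ε = ∏ p ∈ n.primeFactors, ((p : ℝ) ^ (n.factorization p)) ^ ε := by
    have h := Nat.prod_factorization_pow_eq_self hn0
    have h2 : (n : ℝ) = ∏ p ∈ n.primeFactors, (p : ℝ) ^ (n.factorization p) := by
      conv_lhs => rw [← h]
      rw [Finsupp.prod, Nat.support_factorization]
      push_cast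
      rfl
    conv_lhs => rw [h2]
    exact (Real.finsetProd_rpow _ _ (fun p _ => by positivity) _).symm
  -- the local inequality
  have hlocal : ∀ p ∈ n.primeFactors, ((n.factorization p : ℝ) + 1)
      ≤ (if p < P then K else 1) * ((p : ℝ) ^ (n.factorization p)) ^ ε := by
    intro p hp
    have hpp : p.Prime := Nat.prime_of_mem_primeFactors hp
    have hp2 : (2 : ℝ) ≤ p := by exact_mod_cast hpp.two_le
    set a : ℕ := n.factorization p with ha
    have hexp : ((p : ℝ) ^ a) ^ ε = ((p : ℝ) ^ ε) ^ a := by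
      rw [← Real.rpow_natCast, ← Real.rpow_natCast, ← Real.rpow_mul (by linarith),
        ← Real.rpow_mul (by linarith), mul_comm]
    rw [hexp]
    split_ifs with hlt
    · have h1 : (2 : ℝ) ^ ε ≤ (p : ℝ) ^ ε := Real.rpow_le_rpow (by norm_num) hp2 hε.le
      have h2 : ((2 : ℝ) ^ ε) ^ a ≤ ((p : ℝ) ^ ε) ^ a := pow_le_pow_left₀ (by positivity) h1 a
      have h3 : ε * a * L + 1 ≤ ((2 : ℝ) ^ ε) ^ a := by
        have : ((2 : ℝ) ^ ε) ^ a = Real.exp (ε * a * L) := by
          rw [← Real.rpow_natCast, ← Real.rpow_mul (by norm_num), Real.rpow_def_of_pos (by norm_num)]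
          congr 1
          ring
        rw [this]
        exact Real.add_one_le_exp _
      have h4 : (a : ℝ) + 1 ≤ K * (ε * a * L + 1) := by
        have ha0 : (0 : ℝ) ≤ a := Nat.cast_nonneg a
        have : K * (ε * a * L + 1) = (ε * a * L + 1) + (a + 1 / (ε * L)) := by
          rw [hK]; field_simp
        rw [this]
        have h5 : 0 < 1 / (ε * L) := by positivity
        have h6 : 0 ≤ ε * a * L := by positivity
        linarith
      calc (a : ℝ) + 1 ≤ K * (ε * a * L + 1) := h4
        _ ≤ K * ((p : ℝ) ^ ε) ^ a :=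
          mul_le_mul_of_nonneg_left (h3.trans h2) (by linarith)
    · rw [one_mul]
      have h1 : (2 : ℝ) ^ (1 / ε) ≤ p := by
        have : P ≤ p := not_lt.mp hlt
        exact (Nat.le_ceil _).trans (by exact_mod_cast this)
      have h2 : (2 : ℝ) ≤ (p : ℝ) ^ ε := by
        have : ((2 : ℝ) ^ (1 / ε)) ^ ε ≤ (p : ℝ) ^ ε :=
          Real.rpow_le_rpow (by positivity) h1 hε.le
        rwa [← Real.rpow_mul (by norm_num), one_div, inv_mul_cancel₀ hε.ne', Real.rpow_one] at this
      calc (a : ℝ) + 1 ≤ (2 : ℝ) ^ a := by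
            have := Nat.lt_two_pow_self (n := a)
            exact_mod_cast this
        _ ≤ ((p : ℝ) ^ ε) ^ a := pow_le_pow_left₀ (by norm_num) h2 a
  rw [hcard, hnprod]
  calc ∏ p ∈ n.primeFactors, ((n.factorization p : ℝ) + 1)
      ≤ ∏ p ∈ n.primeFactors, ((if p < P then K else 1) * ((p : ℝ) ^ (n.factorization p)) ^ ε) :=
        Finset.prod_le_prod (fun p _ => by positivity) hlocal
    _ = (∏ p ∈ n.primeFactors, (if p < P then K else 1)) *
          ∏ p ∈ n.primeFactors, ((p : ℝ) ^ (n.factorization p)) ^ ε := Finset.prod_mul_distrib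
    _ ≤ K ^ P * ∏ p ∈ n.primeFactors, ((p : ℝ) ^ (n.factorization p)) ^ ε := by
        refine mul_le_mul_of_nonneg_right ?_ (Finset.prod_nonneg fun p _ => by positivity)
        rw [← Finset.prod_filter]
        rw [Finset.prod_const]
        refine pow_le_pow_right₀ hK1 ?_
        calc (n.primeFactors.filter (fun p => p < P)).card ≤ (Finset.range P).card := by
              apply Finset.card_le_card
              intro p hp
              exact Finset.mem_range.2 (Finset.mem_filter.1 hp).2
          _ = P := Finset.card_range P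

end Pool.Agent.H5.W
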