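import Mathlib.Order.Heyting.Regular
import Mathlib.Order.BooleanSubalgebra
import Mathlib.Order.UpperLower.CompleteLattice
import Mathlib.Order.UpperLower.Principal
import Mathlib.SetTheory.Cardinal.Regular
import Mathlib.Order.BooleanAlgebra.Set

/-!
# Minimal (m, n)-products of Boolean m-algebras

Definitions (following Sikorski) and the existence of minimal (m, n)-products.
-/

set_option autoImplicit false

universe u

open Cardinal

namespace Pool.Agent.H92.MProd

/-- `B` is a Boolean `m`-algebra: every family of at most `m` elements has a join and a meet. -/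
def IsMAlgebra (m : Cardinal.{u}) (B : Type u) [BooleanAlgebra B] : Prop :=
  ∀ (I : Type u), #I ≤ m → ∀ f : I → B,
    (∃ b, IsLUB (Set.range f) b) ∧ (∃ b, IsGLB (Set.range f) b)

/-- `f` is an `m`-homomorphism: it preserves complements and all existing joins and meets of
families of at most `m` elements (in particular, as `m` is infinite, it is a Boolean
homomorphism). -/
structure IsMHom (m : Cardinal.{u}) {A B : Type u} [BooleanAlgebra A] [BooleanAlgebra B]
    (f : A → B) : Prop where
  map_compl : ∀ a, f aᶜ = (f a)ᶜ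
  map_lub : ∀ (I : Type u), #I ≤ m → ∀ (g : I → A) (a : A),
    IsLUB (Set.range g) a → IsLUB (Set.range fun i => f (g i)) (f a)
  map_glb : ∀ (I : Type u), #I ≤ m → ∀ (g : I → A) (a : A),
    IsGLB (Set.range g) a → IsGLB (Set.range fun i => f (g i)) (f a)

/-- `G` `m`-generates `B`: the only subset of `B` containing `G` and closed under complements and
under joins and meets of at most `m` elements is `B` itself. -/
def MGenerates (m : Cardinal.{u}) {B : Type u} [BooleanAlgebra B] (G : Set B) : Prop :=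
  ∀ S : Set B, G ⊆ S → (∀ b ∈ S, bᶜ ∈ S) →
    (∀ (I : Type u), #I ≤ m → ∀ f : I → B, (∀ i, f i ∈ S) → ∀ b, IsLUB (Set.range f) b → b ∈ S) →
    (∀ (I : Type u), #I ≤ m → ∀ f : I → B, (∀ i, f i ∈ S) → ∀ b, IsGLB (Set.range f) b → b ∈ S) →
    S = Set.univ

/-- `F` is an `m`-field of subsets of `X`: it is closed under complements and under unions of at
most `m` members (hence also under such intersections). -/
structure IsMField (m : Cardinal.{u}) {X : Type u} (F : Set (Set X)) : Prop where
  compl_mem : ∀ a ∈ F, aᶜ ∈ F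
  iUnion_mem : ∀ (I : Type u), #I ≤ m → ∀ f : I → Set X, (∀ i, f i ∈ F) → (⋃ i, f i) ∈ F

/-- `D` is an `m`-ideal of the `m`-field of sets `F`: a subset of `F` closed downwards in `F` and
closed under unions of at most `m` members. -/
structure IsMIdeal (m : Cardinal.{u}) {X : Type u} (F D : Set (Set X)) : Prop where
  subset : D ⊆ F
  mem_of_subset : ∀ a ∈ D, ∀ b ∈ F, b ⊆ a → b ∈ D
  iUnion_mem : ∀ (I : Type u), #I ≤ m → ∀ f : I → Set X, (∀ i, f i ∈ D) → (⋃ i, f i) ∈ D

/-- `B` is `m`-representable: `B` is isomorphic to `F / D` for an `m`-field of sets `F` and an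
`m`-ideal `D` of `F`.  The isomorphism is given by the map `q` taking a set in `F` to its class:
`q` is onto and `q a ≤ q b` if and only if `a \ b` lies in `D`. -/
def IsMRepresentable (m : Cardinal.{u}) (B : Type u) [BooleanAlgebra B] : Prop :=
  ∃ (X : Type u) (F D : Set (Set X)), IsMField m F ∧ IsMIdeal m F D ∧
    ∃ q : F → B, Function.Surjective q ∧ ∀ a b : F, q a ≤ q b ↔ (a : Set X) \ (b : Set X) ∈ D

/-- `(i, B)` is an `(m, n)`-product of the family `A` (for infinite `n ≤ m`): `B` is a Boolean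
`m`-algebra, each `i t` is an injective `m`-homomorphism, the images together `m`-generate `B`,
and the meet of nonzero elements `a t ∈ i t (A t)`, `t ∈ T'`, is nonzero whenever `|T'| ≤ n`. -/
structure IsProduct (m n : Cardinal.{u}) {T : Type u} (A : T → Type u)
    [∀ t, BooleanAlgebra (A t)] (B : Type u) [BooleanAlgebra B] (i : ∀ t, A t → B) : Prop where
  isMAlgebra : IsMAlgebra m B
  isMHom : ∀ t, IsMHom m (i t)
  injective : ∀ t, Function.Injective (i t)
  generates : MGenerates m (⋃ t, Set.range (i t))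
  meet_ne_bot : ∀ T' : Set T, #T' ≤ n → ∀ a : ∀ t, A t, (∀ t ∈ T', i t (a t) ≠ ⊥) →
    ∀ b, IsGLB ((fun t => i t (a t)) '' T') b → b ≠ ⊥

/-- `(i, B)` is the minimal `(m, n)`-product of the family `A`: an `(m, n)`-product such that
every nonzero `b` in `B` lies above a nonzero meet of elements `a t ∈ i t (A t)`, `t ∈ T'`, with
`|T'| ≤ n`. -/
structure IsMinimalProduct (m n : Cardinal.{u}) {T : Type u} (A : T → Type u)
    [∀ t, BooleanAlgebra (A t)] (B : Type u) [BooleanAlgebra B] (i : ∀ t, A t → B) : Prop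
    extends IsProduct m n A B i where
  exists_meet_le : ∀ b : B, b ≠ ⊥ → ∃ T' : Set T, #T' ≤ n ∧ ∃ a : ∀ t, A t,
    ∃ c, IsGLB ((fun t => i t (a t)) '' T') c ∧ c ≠ ⊥ ∧ c ≤ b

/-! ## Existence of minimal products -/

section Existence

variable {T : Type u} (A : T → Type u) [∀ t, BooleanAlgebra (A t)]

/-- The poset of nonzero rectangles with support of size at most `n`. -/
def Rect (n : Cardinal.{u}) : Type u :=
  {p : ∀ t, A t // (∀ t, p t ≠ ⊥) ∧ #{t // p t ≠ ⊤} ≤ n}

instance (n : Cardinal.{u}) : PartialOrder (Rect A n) :=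
  inferInstanceAs (PartialOrder {p : ∀ t, A t // (∀ t, p t ≠ ⊥) ∧ #{t // p t ≠ ⊤} ≤ n})

variable {A}

theorem Rect.le_def {n : Cardinal.{u}} {p q : Rect A n} : p ≤ q ↔ ∀ t, p.1 t ≤ q.1 t := Iff.rfl

theorem mem_compl {P : Type u} [Preorder P] (U : LowerSet P) (p : P) :
    p ∈ Uᶜ ↔ ∀ q ≤ p, q ∉ U := by
  constructor
  · intro hp q hq hqU
    have h1 : q ∈ Uᶜ := Uᶜ.lower hq hp
    have h2 : q ∈ Uᶜ ⊓ U := ⟨h1, hqU⟩
    rw [compl_inf_self] at h2
    exact h2
  · intro h
    have h1 : LowerSet.Iic p ≤ Uᶜ := by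
      rw [le_compl_iff_disjoint_right, disjoint_iff_inf_le]
      rintro q ⟨hq1, hq2⟩
      exact absurd hq2 (h q hq1)
    exact h1 (le_refl p)

theorem mem_compl_compl {P : Type u} [Preorder P] (U : LowerSet P) (p : P) :
    p ∈ Uᶜᶜ ↔ ∀ q ≤ p, ∃ r ≤ q, r ∈ U := by
  rw [mem_compl]
  refine forall₂_congr fun q _ => ?_
  rw [mem_compl]
  push Not
  rfl

/-- Membership in a regular lower set is a dense property. -/
theorem mem_regular {P : Type u} [Preorder P] (c : Heyting.Regular (LowerSet P)) (p : P)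
    (h : ∀ q ≤ p, ∃ r ≤ q, r ∈ (c : LowerSet P)) : p ∈ (c : LowerSet P) := by
  have h1 := (mem_compl_compl (c : LowerSet P) p).2 h
  rwa [c.prop] at h1

open Classical in
/-- Shrinking one coordinate of a rectangle. -/
noncomputable def Rect.update {n : Cardinal.{u}} (hn : ℵ₀ ≤ n) (p : Rect A n) (t : T) (a : A t)
    (ha : a ≠ ⊥) : Rect A n :=
  ⟨Function.update p.1 t a, by
    constructor
    · intro s
      by_cases h : s = t
      · subst h; simpa using ha
      · rw [Function.update_of_ne h]; exact p.2.1 s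
    · have h1 : {s | Function.update p.1 t a s ≠ ⊤} ⊆ {s | p.1 s ≠ ⊤} ∪ {t} := by
        intro s hs
        by_cases h : s = t
        · right; exact h
        · left
          simp only [Set.mem_ofPred_eq] at hs ⊢
          rwa [Function.update_of_ne h] at hs
      refine (Cardinal.mk_le_mk_of_subset h1).trans ((Cardinal.mk_union_le _ _).trans ?_)
      refine Cardinal.add_le_of_le hn p.2.2 ?_
      rw [Cardinal.mk_singleton]
      exact one_le_aleph0.trans hn⟩

theorem Rect.update_le {n : Cardinal.{u}} (hn : ℵ₀ ≤ n) (p : Rect A n) (t : T) (a : A t)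
    (ha : a ≠ ⊥) (h : a ≤ p.1 t) : p.update hn t a ha ≤ p := by
  classical
  rw [Rect.le_def]
  intro s
  by_cases hs : s = t
  · subst hs; simpa [Rect.update] using h
  · simp [Rect.update, Function.update_of_ne hs]

theorem Rect.update_apply {n : Cardinal.{u}} (hn : ℵ₀ ≤ n) (p : Rect A n) (t : T) (a : A t)
    (ha : a ≠ ⊥) : (p.update hn t a ha).1 t = a := by
  classical
  simp [Rect.update]

/-- The canonical image of `a : A t` in the regular open algebra of the rectangles. -/
noncomputable def emb {n : Cardinal.{u}} (hn : ℵ₀ ≤ n) (t : T) (a : A t) :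
    Heyting.Regular (LowerSet (Rect A n)) :=
  ⟨⟨{p | p.1 t ≤ a}, fun _ _ hqp hp => (hqp t).trans hp⟩, by
    refine le_antisymm ?_ le_compl_compl
    intro p hp
    have hp' := (mem_compl_compl _ p).1 hp
    change p.1 t ≤ a
    by_contra hcon
    have hne : p.1 t \ a ≠ ⊥ := by
      intro h0
      exact hcon (sdiff_eq_bot_iff.1 h0)
    obtain ⟨r, hr, hra⟩ := hp' (p.update hn t (p.1 t \ a) hne)
      (p.update_le hn t _ hne sdiff_le)
    have h1 : r.1 t ≤ a := hra
    have h2 : r.1 t ≤ p.1 t \ a := by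
      have := hr t
      rwa [Rect.update_apply] at this
    have h3 : r.1 t ≤ ⊥ := by
      have := le_inf h1 h2
      rwa [inf_sdiff_self_right] at this
    exact r.2.1 t (le_bot_iff.1 h3)⟩

theorem mem_emb {n : Cardinal.{u}} (hn : ℵ₀ ≤ n) (t : T) (a : A t) (p : Rect A n) :
    p ∈ ((emb hn t a : Heyting.Regular (LowerSet (Rect A n))) : LowerSet (Rect A n)) ↔
      p.1 t ≤ a := Iff.rfl

theorem emb_compl {n : Cardinal.{u}} (hn : ℵ₀ ≤ n) (t : T) (a : A t) :
    emb (A := A) hn t aᶜ = (emb hn t a)ᶜ := by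
  apply Heyting.Regular.coe_injective
  rw [Heyting.Regular.coe_compl]
  ext p
  rw [SetLike.mem_coe, SetLike.mem_coe, mem_emb, mem_compl]
  constructor
  · intro h q hq hqa
    rw [mem_emb] at hqa
    have h1 : q.1 t ≤ ⊥ := by
      have := le_inf ((hq t).trans h) hqa
      rwa [compl_inf_self] at this
    exact q.2.1 t (le_bot_iff.1 h1)
  · intro h
    rw [le_compl_iff_disjoint_right, disjoint_iff]
    by_contra hne
    exact h (p.update hn t (p.1 t ⊓ a) hne) (p.update_le hn t _ hne inf_le_left)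
      (by rw [mem_emb, Rect.update_apply]; exact inf_le_right)

theorem emb_mono {n : Cardinal.{u}} (hn : ℵ₀ ≤ n) (t : T) {a b : A t} (h : a ≤ b) :
    emb (A := A) hn t a ≤ emb hn t b := by
  rw [← Heyting.Regular.coe_le_coe]
  intro p hp
  exact le_trans hp h

theorem emb_isLUB {n : Cardinal.{u}} (hn : ℵ₀ ≤ n) (t : T) {I : Type u} (g : I → A t) (a : A t)
    (h : IsLUB (Set.range g) a) : IsLUB (Set.range fun i => emb (A := A) hn t (g i))
      (emb hn t a) := by
  constructor
  · rintro _ ⟨i, rfl⟩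
    exact emb_mono hn t (h.1 ⟨i, rfl⟩)
  · intro c hc
    rw [← Heyting.Regular.coe_le_coe]
    intro p hp
    apply mem_regular
    intro q hq
    have hqa : q.1 t ≤ a := (hq t).trans hp
    have hex : ∃ i, q.1 t ⊓ g i ≠ ⊥ := by
      by_contra hcon
      push Not at hcon
      have h1 : a ≤ (q.1 t)ᶜ := by
        apply h.2
        rintro _ ⟨i, rfl⟩
        rw [le_compl_iff_disjoint_left, disjoint_iff]
        exact hcon i
      have h2 : q.1 t ≤ ⊥ := by
        have := le_inf (hqa.trans h1) (le_refl (q.1 t))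
        rwa [compl_inf_self] at this
      exact q.2.1 t (le_bot_iff.1 h2)
    obtain ⟨i, hi⟩ := hex
    refine ⟨q.update hn t (q.1 t ⊓ g i) hi, q.update_le hn t _ hi inf_le_left, ?_⟩
    have h1 : emb (A := A) hn t (g i) ≤ c := hc ⟨i, rfl⟩
    rw [← Heyting.Regular.coe_le_coe] at h1
    apply h1
    show (q.update hn t (q.1 t ⊓ g i) hi).1 t ≤ g i
    rw [Rect.update_apply]
    exact inf_le_right

theorem emb_isGLB {n : Cardinal.{u}} (hn : ℵ₀ ≤ n) (t : T) {I : Type u} (g : I → A t) (a : A t)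
    (h : IsGLB (Set.range g) a) : IsGLB (Set.range fun i => emb (A := A) hn t (g i))
      (emb hn t a) := by
  constructor
  · rintro _ ⟨i, rfl⟩
    exact emb_mono hn t (h.1 ⟨i, rfl⟩)
  · intro c hc
    rw [← Heyting.Regular.coe_le_coe]
    intro p hp
    show p.1 t ≤ a
    apply h.2
    rintro _ ⟨i, rfl⟩
    have h1 : c ≤ emb (A := A) hn t (g i) := hc ⟨i, rfl⟩
    rw [← Heyting.Regular.coe_le_coe] at h1
    exact h1 hp

/-- The elements of the regular open algebra that are `m`-generated by the images of the `A t`. -/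
inductive Gen (m : Cardinal.{u}) {n : Cardinal.{u}} (hn : ℵ₀ ≤ n) :
    Heyting.Regular (LowerSet (Rect A n)) → Prop
  | base (t : T) (a : A t) : Gen m hn (emb hn t a)
  | compl (b) : Gen m hn b → Gen m hn bᶜ
  | lub (I : Type u) (hI : #I ≤ m) (f : I → Heyting.Regular (LowerSet (Rect A n)))
      (hf : ∀ i, Gen m hn (f i)) (b) (hb : IsLUB (Set.range f) b) : Gen m hn b

theorem exists_isLUB {P : Type u} [Preorder P] (S : Set (Heyting.Regular (LowerSet P))) :
    ∃ b, IsLUB S b := by
  refine ⟨Heyting.Regular.toRegular (sSup ((fun x : Heyting.Regular (LowerSet P) =>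
    (x : LowerSet P)) '' S)), ?_, ?_⟩
  · intro b hb
    rw [← Heyting.Regular.coe_le_coe, Heyting.Regular.coe_toRegular]
    have h0 : (b : LowerSet P) ∈ ((fun x : Heyting.Regular (LowerSet P) =>
        (x : LowerSet P)) '' S) := ⟨b, hb, rfl⟩
    exact (le_sSup h0).trans le_compl_compl
  · intro c hc
    rw [← Heyting.Regular.coe_le_coe, Heyting.Regular.coe_toRegular]
    have h1 : sSup ((fun x : Heyting.Regular (LowerSet P) => (x : LowerSet P)) '' S) ≤
        (c : LowerSet P) := by
      apply sSup_le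
      rintro _ ⟨b, hb, rfl⟩
      exact Heyting.Regular.coe_le_coe.2 (hc hb)
    have h2 := compl_le_compl (compl_le_compl h1)
    rwa [c.prop.eq] at h2

theorem Gen.sup {m n : Cardinal.{u}} (hn : ℵ₀ ≤ n) (hm : ℵ₀ ≤ m)
    {b c : Heyting.Regular (LowerSet (Rect A n))} (hb : Gen m hn b) (hc : Gen m hn c) :
    Gen m hn (b ⊔ c) := by
  refine Gen.lub (ULift.{u} Bool) ?_ (fun i => if i.down then b else c) ?_ _ ?_
  · exact (Cardinal.lt_aleph0_of_finite _).le.trans hm
  · rintro ⟨i⟩
    cases i <;> simpa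
  · constructor
    · rintro _ ⟨⟨i⟩, rfl⟩
      cases i <;> simp
    · intro d hd
      refine sup_le ?_ ?_
      · exact hd ⟨⟨true⟩, by simp⟩
      · exact hd ⟨⟨false⟩, by simp⟩

theorem Gen.bot {m n : Cardinal.{u}} (hn : ℵ₀ ≤ n) :
    Gen (A := A) m hn ⊥ := by
  refine Gen.lub PEmpty.{u+1} ?_ (fun i => i.elim) ?_ _ ?_
  · simp
  · rintro ⟨⟩
  · simp [Set.range_eq_empty]

/-- The Boolean algebra of generated elements. -/
def genAlg {m n : Cardinal.{u}} (hn : ℵ₀ ≤ n) (hm : ℵ₀ ≤ m) :
    BooleanSubalgebra (Heyting.Regular (LowerSet (Rect A n))) where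
  carrier := {b | Gen m hn b}
  supClosed' := fun _ hb _ hc => Gen.sup hn hm hb hc
  infClosed' := by
    intro b hb c hc
    have h := Gen.compl _ (Gen.sup hn hm (Gen.compl _ hb) (Gen.compl _ hc))
    rwa [compl_sup, compl_compl, compl_compl] at h
  compl_mem' := fun hb => Gen.compl _ hb
  bot_mem' := Gen.bot hn

theorem isGLB_compl {B : Type u} [BooleanAlgebra B] {I : Type u} {f : I → B} {b : B}
    (h : IsLUB (Set.range fun i => (f i)ᶜ) b) : IsGLB (Set.range f) bᶜ := by
  constructor
  · rintro _ ⟨i, rfl⟩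
    have := h.1 ⟨i, rfl⟩
    exact compl_le_of_compl_le this
  · intro c hc
    rw [le_compl_comm]
    apply h.2
    rintro _ ⟨i, rfl⟩
    exact compl_le_compl (hc ⟨i, rfl⟩)

theorem isLUB_compl {B : Type u} [BooleanAlgebra B] {I : Type u} {f : I → B} {b : B}
    (h : IsGLB (Set.range fun i => (f i)ᶜ) b) : IsLUB (Set.range f) bᶜ := by
  constructor
  · rintro _ ⟨i, rfl⟩
    have := h.1 ⟨i, rfl⟩
    exact le_compl_of_le_compl this
  · intro c hc
    rw [compl_le_iff_compl_le]
    apply h.2
    rintro _ ⟨i, rfl⟩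
    exact compl_le_compl (hc ⟨i, rfl⟩)

theorem Gen.glb {m n : Cardinal.{u}} (hn : ℵ₀ ≤ n)
    (I : Type u) (hI : #I ≤ m) (f : I → Heyting.Regular (LowerSet (Rect A n)))
    (hf : ∀ i, Gen m hn (f i)) (b) (hb : IsGLB (Set.range f) b) : Gen m hn b := by
  have h1 : IsLUB (Set.range fun i => (f i)ᶜ) bᶜ := by
    apply isLUB_compl
    simpa using hb
  have h2 := Gen.compl _ (Gen.lub I hI _ (fun i => Gen.compl _ (hf i)) _ h1)
  rwa [compl_compl] at h2

/-- Joins in the algebra of generated elements agree with joins in the regular open algebra. -/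
theorem isLUB_coe {m n : Cardinal.{u}} (hn : ℵ₀ ≤ n) (hm : ℵ₀ ≤ m) {I : Type u} (hI : #I ≤ m)
    (f : I → genAlg (A := A) hn hm) (b : genAlg (A := A) hn hm) :
    IsLUB (Set.range f) b ↔
      IsLUB (Set.range fun i => (f i : Heyting.Regular (LowerSet (Rect A n)))) b := by
  constructor
  · intro h
    obtain ⟨c, hc⟩ := exists_isLUB (Set.range fun i =>
      (f i : Heyting.Regular (LowerSet (Rect A n))))
    have hcg : Gen m hn c := Gen.lub I hI _ (fun i => (f i).2) c hc
    have h1 : b ≤ ⟨c, hcg⟩ := by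
      apply h.2
      rintro _ ⟨i, rfl⟩
      exact hc.1 ⟨i, rfl⟩
    have h2 : c ≤ (b : Heyting.Regular (LowerSet (Rect A n))) := by
      apply hc.2
      rintro _ ⟨i, rfl⟩
      exact h.1 ⟨i, rfl⟩
    have h3 : c = (b : Heyting.Regular (LowerSet (Rect A n))) := le_antisymm h2 h1
    rwa [← h3]
  · intro h
    constructor
    · rintro _ ⟨i, rfl⟩
      exact h.1 ⟨i, rfl⟩
    · intro c hc
      apply h.2
      rintro _ ⟨i, rfl⟩
      exact hc ⟨i, rfl⟩

theorem isGLB_coe {m n : Cardinal.{u}} (hn : ℵ₀ ≤ n) (hm : ℵ₀ ≤ m) {I : Type u} (hI : #I ≤ m)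
    (f : I → genAlg (A := A) hn hm) (b : genAlg (A := A) hn hm) :
    IsGLB (Set.range f) b ↔
      IsGLB (Set.range fun i => (f i : Heyting.Regular (LowerSet (Rect A n)))) b := by
  constructor
  · intro h
    have h1 : IsLUB (Set.range fun i => (f i)ᶜ) bᶜ := by
      apply isLUB_compl
      simpa using h
    have h2 := (isLUB_coe hn hm hI _ _).1 h1
    have h3 := isGLB_compl (f := fun i => (f i : Heyting.Regular (LowerSet (Rect A n))))
      (b := (b : Heyting.Regular (LowerSet (Rect A n)))ᶜ) (by simpa using h2)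
    rwa [compl_compl] at h3
  · intro h
    constructor
    · rintro _ ⟨i, rfl⟩
      exact h.1 ⟨i, rfl⟩
    · intro c hc
      apply h.2
      rintro _ ⟨i, rfl⟩
      exact hc ⟨i, rfl⟩

open Classical in
/-- The rectangle with sides `a t`, `t ∈ T'`. -/
noncomputable def Rect.mk' {n : Cardinal.{u}} (hA : ∀ t, Nontrivial (A t)) (T' : Set T)
    (hT' : #T' ≤ n) (a : ∀ t, A t) (ha : ∀ t ∈ T', a t ≠ ⊥) : Rect A n :=
  ⟨fun t => if t ∈ T' then a t else ⊤, by
    constructor
    · intro t
      by_cases h : t ∈ T'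
      · simpa [h] using ha t h
      · have := hA t
        simp [h]
    · refine le_trans (Cardinal.mk_le_mk_of_subset ?_) hT'
      intro t ht
      by_contra hcon
      exact ht (by simp [hcon])⟩

/-- **Existence of minimal products.** Every family of nondegenerate Boolean `m`-algebras has a
minimal `(m, n)`-product. -/
theorem exists_isMinimalProduct (m n : Cardinal.{u}) (hn : ℵ₀ ≤ n) (hnm : n ≤ m)
    (hA : ∀ t, Nontrivial (A t)) :
    ∃ (B : Type u) (_ : BooleanAlgebra B) (i : ∀ t, A t → B), IsMinimalProduct m n A B i := by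
  classical
  have hm : ℵ₀ ≤ m := hn.trans hnm
  let i : ∀ t, A t → genAlg (A := A) hn hm := fun t a => ⟨emb hn t a, Gen.base t a⟩
  have hbot : ∀ b : genAlg (A := A) hn hm,
      b ≠ ⊥ → ∃ p : Rect A n, p ∈ ((b : Heyting.Regular (LowerSet (Rect A n))) :
        LowerSet (Rect A n)) := by
    intro b hb
    by_contra hcon
    push Not at hcon
    apply hb
    rw [← le_bot_iff]
    show (b : Heyting.Regular (LowerSet (Rect A n))) ≤ ⊥
    rw [← Heyting.Regular.coe_le_coe]
    intro p hp
    exact absurd hp (hcon p)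
  have hne : ∀ (b : genAlg (A := A) hn hm) (p : Rect A n),
      p ∈ ((b : Heyting.Regular (LowerSet (Rect A n))) : LowerSet (Rect A n)) → b ≠ ⊥ := by
    rintro b p hp rfl
    have : p ∈ (⊥ : LowerSet (Rect A n)) := hp
    exact this
  have hinj : ∀ t, Function.Injective (i t) := by
    intro t a b hab
    have key : ∀ a b : A t, i t a = i t b → a ≤ b := by
      intro a b hab
      by_contra hcon
      have hne' : a \ b ≠ ⊥ := fun h0 => hcon (sdiff_eq_bot_iff.1 h0)
      let p : Rect A n := Rect.mk' hA {t} (by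
        rw [Cardinal.mk_singleton]; exact one_le_aleph0.trans hn)
        (Function.update (fun s => (⊤ : A s)) t (a \ b)) (by
          rintro s rfl; simpa using hne')
      have hpt : p.1 t = a \ b := by simp [p, Rect.mk']
      have h1 : p ∈ ((emb (A := A) hn t a : Heyting.Regular (LowerSet (Rect A n))) :
          LowerSet (Rect A n)) := by
        rw [mem_emb, hpt]; exact sdiff_le
      have h2 : emb (A := A) hn t a = emb hn t b := congrArg Subtype.val hab
      rw [h2, mem_emb, hpt] at h1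
      have h3 : a \ b ≤ ⊥ := by
        have := le_inf h1 (le_refl (a \ b))
        rwa [inf_sdiff_self_right] at this
      exact hne' (le_bot_iff.1 h3)
    exact le_antisymm (key a b hab) (key b a hab.symm)
  have hhom : ∀ t, IsMHom m (i t) := by
    intro t
    refine ⟨?_, ?_, ?_⟩
    · intro a
      apply Subtype.ext
      exact emb_compl hn t a
    · intro I hI g a h
      rw [isLUB_coe hn hm hI]
      exact emb_isLUB hn t g a h
    · intro I hI g a h
      rw [isGLB_coe hn hm hI]
      exact emb_isGLB hn t g a h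
  have hbot' : ∀ t (a : A t), i t a ≠ ⊥ → a ≠ ⊥ := by
    rintro t a h rfl
    apply h
    rw [← le_bot_iff]
    show emb (A := A) hn t ⊥ ≤ ⊥
    rw [← Heyting.Regular.coe_le_coe]
    intro p hp
    have hp' : p.1 t ≤ ⊥ := hp
    exact absurd (le_bot_iff.1 hp') (p.2.1 t)
  refine ⟨genAlg (A := A) hn hm, inferInstance, i, ?_⟩
  refine
    { isMAlgebra := ?_
      isMHom := hhom
      injective := hinj
      generates := ?_
      meet_ne_bot := ?_
      exists_meet_le := ?_ }
  · intro I hI f
    obtain ⟨b, hb⟩ := exists_isLUB (Set.range fun i =>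
      (f i : Heyting.Regular (LowerSet (Rect A n))))
    obtain ⟨c, hc⟩ := exists_isLUB (Set.range fun i =>
      ((f i)ᶜ : Heyting.Regular (LowerSet (Rect A n))))
    have hbg : Gen m hn b := Gen.lub I hI _ (fun i => (f i).2) b hb
    have hcg : Gen m hn cᶜ := Gen.compl _ (Gen.lub I hI _ (fun i => Gen.compl _ (f i).2) c hc)
    refine ⟨⟨⟨b, hbg⟩, (isLUB_coe hn hm hI _ _).2 hb⟩, ⟨⟨cᶜ, hcg⟩, (isGLB_coe hn hm hI _ _).2 ?_⟩⟩
    exact isGLB_compl hc
  · intro S hS hcompl hlub _
    have key : ∀ b, ∀ hb : Gen (A := A) m hn b, (⟨b, hb⟩ : genAlg (A := A) hn hm) ∈ S := by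
      intro b hb
      induction hb with
      | base t a => exact hS (Set.mem_iUnion.2 ⟨t, ⟨a, rfl⟩⟩)
      | compl b hb ih =>
        have h1 := hcompl ⟨b, hb⟩ ih
        have h2 : (⟨b, hb⟩ : genAlg (A := A) hn hm)ᶜ = ⟨bᶜ, Gen.compl b hb⟩ := rfl
        rwa [h2] at h1
      | lub I hI f hf b hb ih =>
        have h1 := (isLUB_coe hn hm hI (fun i => (⟨f i, hf i⟩ : genAlg (A := A) hn hm))
          ⟨b, Gen.lub I hI f hf b hb⟩).2 hb
        exact hlub I hI (fun i => (⟨f i, hf i⟩ : genAlg (A := A) hn hm)) ih _ h1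
    ext b
    simp only [Set.mem_univ, iff_true]
    exact key b.1 b.2
  · intro T' hT' a ha b hb
    let p : Rect A n := Rect.mk' hA T' hT' a (fun t ht => hbot' t _ (ha t ht))
    have hT'm : #T' ≤ m := hT'.trans hnm
    have hb0 : IsGLB (Set.range fun s : T' => i s.1 (a s.1)) b := by
      rw [Set.image_eq_range] at hb
      exact hb
    have hb' := (isGLB_coe hn hm hT'm _ _).1 hb0
    obtain ⟨c, hcprop⟩ : ∃ c : Heyting.Regular (LowerSet (Rect A n)),
        ((c : Heyting.Regular (LowerSet (Rect A n))) : LowerSet (Rect A n)) =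
          (LowerSet.Iic p)ᶜᶜ := ⟨⟨(LowerSet.Iic p)ᶜᶜ, by
            show _ = _
            rw [compl_compl_compl]⟩, rfl⟩
    have hcb : c ≤ (b : Heyting.Regular (LowerSet (Rect A n))) := by
      apply hb'.2
      rintro _ ⟨⟨t, ht⟩, rfl⟩
      rw [← Heyting.Regular.coe_le_coe, hcprop]
      have h1 : LowerSet.Iic p ≤ ((emb (A := A) hn t (a t) :
          Heyting.Regular (LowerSet (Rect A n))) : LowerSet (Rect A n)) := by
        intro q hq
        show q.1 t ≤ a t
        have h2 : q.1 t ≤ p.1 t := hq t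
        have h3 : p.1 t = a t := by simp [p, Rect.mk', ht]
        rwa [h3] at h2
      have h4 := compl_le_compl (compl_le_compl h1)
      rwa [(emb (A := A) hn t (a t)).prop.eq] at h4
    refine hne b p ?_
    rw [← Heyting.Regular.coe_le_coe, hcprop] at hcb
    exact hcb ((le_compl_compl : LowerSet.Iic p ≤ (LowerSet.Iic p)ᶜᶜ) (le_refl p))
  · intro b hb
    obtain ⟨p, hp⟩ := hbot b hb
    refine ⟨{t | p.1 t ≠ ⊤}, p.2.2, p.1, ?_⟩
    have hTm : #{t // p.1 t ≠ ⊤} ≤ m := p.2.2.trans hnm
    obtain ⟨c, hc⟩ := exists_isLUB (Set.range fun t : {t // p.1 t ≠ ⊤} =>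
      ((emb (A := A) hn t.1 (p.1 t.1))ᶜ : Heyting.Regular (LowerSet (Rect A n))))
    have hcg : Gen m hn cᶜ := Gen.compl _ (Gen.lub _ hTm _
      (fun t => Gen.compl _ (Gen.base t.1 (p.1 t.1))) c hc)
    have hglb : IsGLB (Set.range fun t : {t // p.1 t ≠ ⊤} => emb (A := A) hn t.1 (p.1 t.1)) cᶜ :=
      isGLB_compl hc
    refine ⟨⟨cᶜ, hcg⟩, ?_, ?_, ?_⟩
    · rw [Set.image_eq_range]
      exact (isGLB_coe hn hm hTm _ _).2 hglb
    · refine hne _ p ?_
      show p ∈ ((cᶜ : Heyting.Regular (LowerSet (Rect A n))) : LowerSet (Rect A n))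
      apply mem_regular
      intro q hq
      refine ⟨q, le_refl q, ?_⟩
      have hq' : ∃ d : Heyting.Regular (LowerSet (Rect A n)),
        ((d : Heyting.Regular (LowerSet (Rect A n))) : LowerSet (Rect A n)) =
          (LowerSet.Iic q)ᶜᶜ := ⟨⟨(LowerSet.Iic q)ᶜᶜ, by
            show _ = _
            rw [compl_compl_compl]⟩, rfl⟩
      obtain ⟨d, hd⟩ := hq'
      have hdc : d ≤ cᶜ := by
        apply hglb.2
        rintro _ ⟨t, rfl⟩
        rw [← Heyting.Regular.coe_le_coe, hd]
        have h1 : LowerSet.Iic q ≤ ((emb (A := A) hn t.1 (p.1 t.1) :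
            Heyting.Regular (LowerSet (Rect A n))) : LowerSet (Rect A n)) := by
          intro r hr
          exact (hr t.1).trans (hq t.1)
        have h4 := compl_le_compl (compl_le_compl h1)
        rwa [(emb (A := A) hn t.1 (p.1 t.1)).prop.eq] at h4
      rw [← Heyting.Regular.coe_le_coe, hd] at hdc
      exact hdc ((le_compl_compl : LowerSet.Iic q ≤ (LowerSet.Iic q)ᶜᶜ) (le_refl q))
    · show cᶜ ≤ (b : Heyting.Regular (LowerSet (Rect A n)))
      rw [← Heyting.Regular.coe_le_coe]
      intro q hq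
      have hqp : q ≤ p := by
        intro t
        by_cases ht : p.1 t = ⊤
        · rw [ht]; exact le_top
        · have h1 := hglb.1 ⟨⟨t, ht⟩, rfl⟩
          rw [← Heyting.Regular.coe_le_coe] at h1
          exact h1 hq
      exact ((b : Heyting.Regular (LowerSet (Rect A n))) : LowerSet (Rect A n)).lower hqp hp

end Existence

end Pool.Agent.H92.MProd
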