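import Pool.Agent.H92.MProd

/-!
# Basic facts about representations by quotients of fields of sets
-/

set_option autoImplicit false

universe u

open Cardinal

namespace Pool.Agent.H92.MProd

variable {m : Cardinal.{u}} {B : Type u} [BooleanAlgebra B]

section Rep

variable {X : Type u} {F D : Set (Set X)} (hF : IsMField m F) (hD : IsMIdeal m F D)
  {q : F → B} (hq : Function.Surjective q)
  (hle : ∀ a b : F, q a ≤ q b ↔ (a : Set X) \ (b : Set X) ∈ D)

include hF in
theorem IsMField.empty_mem : (∅ : Set X) ∈ F := by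
  have := hF.iUnion_mem PEmpty.{u+1} (by simp) (fun i => i.elim) (fun i => i.elim)
  simpa using this

include hD in
theorem IsMIdeal.empty_mem : (∅ : Set X) ∈ D := by
  have := hD.iUnion_mem PEmpty.{u+1} (by simp) (fun i => i.elim) (fun i => i.elim)
  simpa using this

include hF in
theorem IsMField.iInter_mem (I : Type u) (hI : #I ≤ m) (f : I → Set X) (hf : ∀ i, f i ∈ F) :
    (⋂ i, f i) ∈ F := by
  have h1 := hF.compl_mem _ (hF.iUnion_mem I hI (fun i => (f i)ᶜ)
    (fun i => hF.compl_mem _ (hf i)))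
  simpa [Set.compl_iUnion] using h1

include hF in
theorem IsMField.inter_mem (hm : ℵ₀ ≤ m) {a b : Set X} (ha : a ∈ F) (hb : b ∈ F) :
    a ∩ b ∈ F := by
  have h1 := hF.iInter_mem (ULift.{u} Bool) ((Cardinal.lt_aleph0_of_finite _).le.trans hm)
    (fun i => if i.down then a else b) (by rintro ⟨i⟩; cases i <;> simpa)
  have h2 : (⋂ i : ULift.{u} Bool, (if i.down then a else b)) = a ∩ b := by
    ext x
    simp only [Set.mem_iInter, ULift.forall, Bool.forall_bool, Set.mem_inter_iff]
    simp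
    tauto
  rwa [h2] at h1

include hF in
theorem IsMField.diff_mem (hm : ℵ₀ ≤ m) {a b : Set X} (ha : a ∈ F) (hb : b ∈ F) :
    a \ b ∈ F := by
  rw [Set.sdiff_eq]
  exact hF.inter_mem hm ha (hF.compl_mem _ hb)

include hF hD hq hle in
/-- In a nontrivial representable algebra, some point avoids any `m` sets of the ideal. -/
theorem exists_point (hm : ℵ₀ ≤ m) [Nontrivial B] (I : Type u) (hI : #I ≤ m) (g : I → Set X)
    (hg : ∀ i, g i ∈ D) : ∃ x, ∀ i, x ∉ g i := by
  by_contra hcon
  push Not at hcon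
  have h1 : (⋃ i, g i) = Set.univ := by
    ext x
    simpa using hcon x
  have h2 : (Set.univ : Set X) ∈ D := h1 ▸ hD.iUnion_mem I hI g hg
  obtain ⟨a, ha⟩ := hq ⊤
  obtain ⟨b, hb⟩ := hq ⊥
  have h3 : q a ≤ q b := by
    rw [hle]
    exact hD.mem_of_subset _ h2 _ (hF.diff_mem hm a.2 b.2) (Set.subset_univ _)
  rw [ha, hb] at h3
  exact top_ne_bot (le_bot_iff.1 h3)

include hD hle in
theorem q_mono {a b : F} (h : (a : Set X) ⊆ b) : q a ≤ q b := by
  rw [hle, Set.sdiff_eq_empty.2 h]
  exact hD.empty_mem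

include hF hle in
/-- A set whose class is `⊥` is in the ideal. -/
theorem mem_of_le_bot {a : F} (h : q a ≤ ⊥) : (a : Set X) ∈ D := by
  have h1 : q a ≤ q ⟨∅, hF.empty_mem⟩ := h.trans bot_le
  rw [hle] at h1
  simpa using h1

include hF hD hle in
/-- If the meet of two classes is `⊥`, the intersection is in the ideal. -/
theorem inter_mem_of_inf (hm : ℵ₀ ≤ m) {a b : F} (h : q a ⊓ q b ≤ ⊥) :
    (a : Set X) ∩ (b : Set X) ∈ D := by
  let c : F := ⟨(a : Set X) ∩ (b : Set X), hF.inter_mem hm a.2 b.2⟩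
  have h1 : q c ≤ q a := q_mono hD hle (show (c : Set X) ⊆ a from Set.inter_subset_left)
  have h2 : q c ≤ q b := q_mono hD hle (show (c : Set X) ⊆ b from Set.inter_subset_right)
  exact mem_of_le_bot hF hle ((le_inf h1 h2).trans h)

include hF hle in
/-- A set whose class is `⊤` has complement in the ideal. -/
theorem compl_mem_of_top_le {a : F} (h : ⊤ ≤ q a) : ((a : Set X))ᶜ ∈ D := by
  have h1 : q ⟨(∅ : Set X)ᶜ, hF.compl_mem _ hF.empty_mem⟩ ≤ q a := le_top.trans h
  rw [hle] at h1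
  simpa [Set.compl_eq_univ_sdiff] using h1

end Rep

/-! ## Basic facts about products -/

section Prod

variable {T : Type u} {A : T → Type u} [∀ t, BooleanAlgebra (A t)] {n : Cardinal.{u}}
  {i : ∀ t, A t → B}

/-- An `m`-homomorphism is monotone (`m` infinite). -/
theorem IsMHom.mono {A B : Type u} [BooleanAlgebra A] [BooleanAlgebra B] {f : A → B}
    (hm : ℵ₀ ≤ m) (hf : IsMHom m f) {a b : A} (h : a ≤ b) : f a ≤ f b := by
  have h1 := hf.map_lub (ULift.{u} Bool) ((Cardinal.lt_aleph0_of_finite _).le.trans hm)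
    (fun i => if i.down then a else b) b (by
      constructor
      · rintro _ ⟨⟨i⟩, rfl⟩
        cases i <;> simp [h]
      · intro c hc
        exact hc ⟨⟨false⟩, by simp⟩)
  exact h1.1 ⟨⟨true⟩, by simp⟩

theorem IsMHom.map_bot {A B : Type u} [BooleanAlgebra A] [BooleanAlgebra B] {f : A → B}
    (hf : IsMHom m f) : f ⊥ = ⊥ := by
  have h1 := hf.map_lub PEmpty.{u+1} (by simp) (fun i => i.elim) ⊥ (by simp [Set.range_eq_empty])
  simpa [Set.range_eq_empty] using h1

theorem IsMHom.map_top {A B : Type u} [BooleanAlgebra A] [BooleanAlgebra B] {f : A → B}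
    (hf : IsMHom m f) : f ⊤ = ⊤ := by
  have h1 := hf.map_glb PEmpty.{u+1} (by simp) (fun i => i.elim) ⊤ (by simp [Set.range_eq_empty])
  simpa [Set.range_eq_empty] using h1

theorem IsMHom.map_inf {A B : Type u} [BooleanAlgebra A] [BooleanAlgebra B] {f : A → B}
    (hm : ℵ₀ ≤ m) (hf : IsMHom m f) (a b : A) : f (a ⊓ b) = f a ⊓ f b := by
  have h1 := hf.map_glb (ULift.{u} Bool) ((Cardinal.lt_aleph0_of_finite _).le.trans hm)
    (fun i => if i.down then a else b) (a ⊓ b) (by
      constructor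
      · rintro _ ⟨⟨i⟩, rfl⟩
        cases i <;> simp
      · intro c hc
        refine le_inf ?_ ?_
        · exact hc ⟨⟨true⟩, by simp⟩
        · exact hc ⟨⟨false⟩, by simp⟩)
  apply le_antisymm
  · exact le_inf (h1.1 ⟨⟨true⟩, by simp⟩) (h1.1 ⟨⟨false⟩, by simp⟩)
  · apply h1.2
    rintro _ ⟨⟨i⟩, rfl⟩
    cases i <;> simp

theorem IsProduct.nontrivial (h : IsProduct m n A B i) : Nontrivial B := by
  have h1 := h.meet_ne_bot ∅ (by simp) (fun _ => ⊤) (by simp) ⊤ (by simp)
  exact ⟨⊤, ⊥, h1⟩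

theorem IsProduct.ne_bot (h : IsProduct m n A B i) {t : T} {a : A t} (ha : a ≠ ⊥) :
    i t a ≠ ⊥ := by
  intro h0
  apply ha
  apply h.injective t
  rw [h0, (h.isMHom t).map_bot]

end Prod

end Pool.Agent.H92.MProd
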