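import Pool.Agent.H92.MProd
import Pool.Agent.H92.MProdRep

/-!
# Quotients of power sets by `m`-ideals
-/

set_option autoImplicit false

universe u

open Cardinal

namespace Pool.Agent.H92.MProd

/-- A set of subsets of `X` closed under subsets and finite unions. -/
structure IsId {X : Type u} (D : Set (Set X)) : Prop where
  empty : ∅ ∈ D
  mono : ∀ a ∈ D, ∀ b, b ⊆ a → b ∈ D
  union : ∀ a ∈ D, ∀ b ∈ D, a ∪ b ∈ D

/-- Equality modulo the ideal. -/
def idSetoid {X : Type u} {D : Set (Set X)} (h : IsId D) : Setoid (Set X) where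
  r a b := a \ b ∈ D ∧ b \ a ∈ D
  iseqv := by
    refine ⟨?_, ?_, ?_⟩
    · intro a
      simpa using h.empty
    · rintro a b ⟨h1, h2⟩
      exact ⟨h2, h1⟩
    · rintro a b c ⟨h1, h2⟩ ⟨h3, h4⟩
      constructor
      · refine h.mono _ (h.union _ h1 _ h3) _ ?_
        intro x hx
        simp only [Set.mem_union, Set.mem_sdiff] at hx ⊢
        tauto
      · refine h.mono _ (h.union _ h2 _ h4) _ ?_
        intro x hx
        simp only [Set.mem_union, Set.mem_sdiff] at hx ⊢
        tauto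

/-- The quotient of the power set of `X` by the ideal `D`. -/
def PQuot {X : Type u} {D : Set (Set X)} (h : IsId D) : Type u := Quotient (idSetoid h)

namespace PQuot

variable {X : Type u} {D : Set (Set X)} (h : IsId D)

/-- The class of a set. -/
def mk (a : Set X) : PQuot h := Quotient.mk (idSetoid h) a

theorem mk_surjective : Function.Surjective (mk h) := Quotient.mk_surjective

theorem mk_eq_mk {a b : Set X} : mk h a = mk h b ↔ a \ b ∈ D ∧ b \ a ∈ D :=
  Quotient.eq (r := idSetoid h)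

/-- order -/
def le : PQuot h → PQuot h → Prop :=
  Quotient.lift₂ (fun a b => a \ b ∈ D) (by
    rintro a₁ b₁ a₂ b₂ ⟨h1, h2⟩ ⟨h3, h4⟩
    apply propext
    constructor
    · intro h5
      refine h.mono _ (h.union _ h2 _ (h.union _ h5 _ h3)) _ ?_
      intro x hx
      simp only [Set.mem_union, Set.mem_sdiff] at hx ⊢
      tauto
    · intro h5
      refine h.mono _ (h.union _ h1 _ (h.union _ h5 _ h4)) _ ?_
      intro x hx
      simp only [Set.mem_union, Set.mem_sdiff] at hx ⊢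
      tauto)

theorem le_mk {a b : Set X} : le h (mk h a) (mk h b) ↔ a \ b ∈ D := Iff.rfl

/-- join -/
def sup : PQuot h → PQuot h → PQuot h :=
  Quotient.map₂ (fun a b => a ∪ b) (by
    rintro a₁ b₁ ⟨h1, h2⟩ a₂ b₂ ⟨h3, h4⟩
    constructor
    · refine h.mono _ (h.union _ h1 _ h3) _ ?_
      intro x hx
      simp only [Set.mem_union, Set.mem_sdiff] at hx ⊢
      tauto
    · refine h.mono _ (h.union _ h2 _ h4) _ ?_
      intro x hx
      simp only [Set.mem_union, Set.mem_sdiff] at hx ⊢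
      tauto)

/-- meet -/
def inf : PQuot h → PQuot h → PQuot h :=
  Quotient.map₂ (fun a b => a ∩ b) (by
    rintro a₁ b₁ ⟨h1, h2⟩ a₂ b₂ ⟨h3, h4⟩
    constructor
    · refine h.mono _ (h.union _ h1 _ h3) _ ?_
      intro x hx
      simp only [Set.mem_union, Set.mem_inter_iff, Set.mem_sdiff] at hx ⊢
      tauto
    · refine h.mono _ (h.union _ h2 _ h4) _ ?_
      intro x hx
      simp only [Set.mem_union, Set.mem_inter_iff, Set.mem_sdiff] at hx ⊢
      tauto)

/-- complement -/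
def compl : PQuot h → PQuot h :=
  Quotient.map (fun a => aᶜ) (by
    rintro a₁ b₁ ⟨h1, h2⟩
    constructor
    · refine h.mono _ h2 _ ?_
      intro x hx
      simp only [Set.mem_compl_iff, Set.mem_sdiff] at hx ⊢
      tauto
    · refine h.mono _ h1 _ ?_
      intro x hx
      simp only [Set.mem_compl_iff, Set.mem_sdiff] at hx ⊢
      tauto)

instance : BooleanAlgebra (PQuot h) where
  le := le h
  lt a b := le h a b ∧ ¬ le h b a
  le_refl a := by
    obtain ⟨a, rfl⟩ := mk_surjective h a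
    show a \ a ∈ D
    simpa using h.empty
  le_trans a b c := by
    obtain ⟨a, rfl⟩ := mk_surjective h a
    obtain ⟨b, rfl⟩ := mk_surjective h b
    obtain ⟨c, rfl⟩ := mk_surjective h c
    intro (h1 : a \ b ∈ D) (h2 : b \ c ∈ D)
    show a \ c ∈ D
    refine h.mono _ (h.union _ h1 _ h2) _ ?_
    intro x hx
    simp only [Set.mem_union, Set.mem_sdiff] at hx ⊢
    tauto
  le_antisymm a b := by
    obtain ⟨a, rfl⟩ := mk_surjective h a
    obtain ⟨b, rfl⟩ := mk_surjective h b
    intro (h1 : a \ b ∈ D) (h2 : b \ a ∈ D)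
    exact (mk_eq_mk h).2 ⟨h1, h2⟩
  lt_iff_le_not_ge _ _ := Iff.rfl
  sup := sup h
  inf := inf h
  compl := compl h
  top := mk h Set.univ
  bot := mk h ∅
  le_sup_left a b := by
    obtain ⟨a, rfl⟩ := mk_surjective h a
    obtain ⟨b, rfl⟩ := mk_surjective h b
    show a \ (a ∪ b) ∈ D
    rw [Set.sdiff_eq_empty.2 Set.subset_union_left]
    exact h.empty
  le_sup_right a b := by
    obtain ⟨a, rfl⟩ := mk_surjective h a
    obtain ⟨b, rfl⟩ := mk_surjective h b
    show b \ (a ∪ b) ∈ D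
    rw [Set.sdiff_eq_empty.2 Set.subset_union_right]
    exact h.empty
  sup_le a b c := by
    obtain ⟨a, rfl⟩ := mk_surjective h a
    obtain ⟨b, rfl⟩ := mk_surjective h b
    obtain ⟨c, rfl⟩ := mk_surjective h c
    intro h1 h2
    show (a ∪ b) \ c ∈ D
    rw [Set.union_sdiff_distrib]
    exact h.union _ h1 _ h2
  inf_le_left a b := by
    obtain ⟨a, rfl⟩ := mk_surjective h a
    obtain ⟨b, rfl⟩ := mk_surjective h b
    show (a ∩ b) \ a ∈ D
    rw [Set.sdiff_eq_empty.2 Set.inter_subset_left]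
    exact h.empty
  inf_le_right a b := by
    obtain ⟨a, rfl⟩ := mk_surjective h a
    obtain ⟨b, rfl⟩ := mk_surjective h b
    show (a ∩ b) \ b ∈ D
    rw [Set.sdiff_eq_empty.2 Set.inter_subset_right]
    exact h.empty
  le_inf a b c := by
    obtain ⟨a, rfl⟩ := mk_surjective h a
    obtain ⟨b, rfl⟩ := mk_surjective h b
    obtain ⟨c, rfl⟩ := mk_surjective h c
    intro h1 h2
    show a \ (b ∩ c) ∈ D
    rw [Set.sdiff_inter]
    exact h.union _ h1 _ h2
  le_top a := by
    obtain ⟨a, rfl⟩ := mk_surjective h a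
    show a \ Set.univ ∈ D
    rw [Set.sdiff_eq_empty.2 (Set.subset_univ _)]
    exact h.empty
  bot_le a := by
    obtain ⟨a, rfl⟩ := mk_surjective h a
    show ∅ \ a ∈ D
    rw [Set.sdiff_eq_empty.2 (Set.empty_subset _)]
    exact h.empty
  le_sup_inf a b c := by
    obtain ⟨a, rfl⟩ := mk_surjective h a
    obtain ⟨b, rfl⟩ := mk_surjective h b
    obtain ⟨c, rfl⟩ := mk_surjective h c
    show ((a ∪ b) ∩ (a ∪ c)) \ (a ∪ (b ∩ c)) ∈ D
    rw [Set.sdiff_eq_empty.2 (by rw [Set.union_inter_distrib_left])]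
    exact h.empty
  inf_compl_le_bot a := by
    obtain ⟨a, rfl⟩ := mk_surjective h a
    show (a ∩ aᶜ) \ ∅ ∈ D
    rw [Set.inter_compl_self, Set.sdiff_self]
    exact h.empty
  top_le_sup_compl a := by
    obtain ⟨a, rfl⟩ := mk_surjective h a
    show Set.univ \ (a ∪ aᶜ) ∈ D
    rw [Set.union_compl_self, Set.sdiff_self]
    exact h.empty

theorem mk_le_mk {a b : Set X} : mk h a ≤ mk h b ↔ a \ b ∈ D := Iff.rfl

theorem mk_bot : (⊥ : PQuot h) = mk h ∅ := rfl

theorem mk_inf (a b : Set X) : mk h a ⊓ mk h b = mk h (a ∩ b) := rfl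

theorem mk_compl (a : Set X) : (mk h a)ᶜ = mk h aᶜ := rfl

theorem mk_eq_bot {a : Set X} : mk h a = ⊥ ↔ a ∈ D := by
  rw [← le_bot_iff, mk_bot, mk_le_mk, Set.sdiff_empty]

variable {m : Cardinal.{u}}

/-- Joins of at most `m` classes are classes of unions if the ideal is an `m`-ideal. -/
theorem isLUB_mk (hD : ∀ (I : Type u), #I ≤ m → ∀ f : I → Set X, (∀ i, f i ∈ D) →
    (⋃ i, f i) ∈ D) {I : Type u} (hI : #I ≤ m) (f : I → Set X) :
    IsLUB (Set.range fun i => mk h (f i)) (mk h (⋃ i, f i)) := by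
  constructor
  · rintro _ ⟨i, rfl⟩
    rw [mk_le_mk, Set.sdiff_eq_empty.2 (Set.subset_iUnion f i)]
    exact h.empty
  · intro c hc
    obtain ⟨c, rfl⟩ := mk_surjective h c
    rw [mk_le_mk, Set.iUnion_sdiff]
    exact hD I hI _ (fun i => hc ⟨i, rfl⟩)

theorem isMAlgebra (hD : ∀ (I : Type u), #I ≤ m → ∀ f : I → Set X, (∀ i, f i ∈ D) →
    (⋃ i, f i) ∈ D) : IsMAlgebra m (PQuot h) := by
  intro I hI f
  choose g hg using fun i => mk_surjective h (f i)
  constructor
  · refine ⟨mk h (⋃ i, g i), ?_⟩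
    have := isLUB_mk h hD hI g
    simpa only [hg] using this
  · refine ⟨(mk h (⋃ i, (g i)ᶜ))ᶜ, ?_⟩
    have := isLUB_mk h hD hI (fun i => (g i)ᶜ)
    apply isGLB_compl
    simpa only [← mk_compl, hg] using this

theorem isMRepresentable (hD : ∀ (I : Type u), #I ≤ m → ∀ f : I → Set X, (∀ i, f i ∈ D) →
    (⋃ i, f i) ∈ D) : IsMRepresentable m (PQuot h) := by
  refine ⟨X, Set.univ, D, ⟨by simp, by simp⟩, ⟨Set.subset_univ _, ?_, hD⟩,
    fun a => mk h a.1, ?_, ?_⟩
  · intro a ha b _ hb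
    exact h.mono a ha b hb
  · intro b
    obtain ⟨a, rfl⟩ := mk_surjective h b
    exact ⟨⟨a, Set.mem_univ a⟩, rfl⟩
  · intro a b
    exact Iff.rfl

end PQuot

end Pool.Agent.H92.MProd
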