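import Mathlib

/-!
Definitions for the results on the strong measure zero ideal.
-/

namespace Pool.Agent.H92.SN

/-- `X` has strong measure zero: for every sequence of positive reals `ε n` there are intervals
`[a n, b n]` of length less than `ε n` which cover `X`. -/
def StrongMeasureZero (X : Set ℝ) : Prop :=
  ∀ ε : ℕ → ℝ, (∀ n, 0 < ε n) →
    ∃ a b : ℕ → ℝ, (∀ n, b n - a n < ε n) ∧ X ⊆ ⋃ n, Set.Icc (a n) (b n)

/-- The cofinality of the ideal of strong measure zero sets. -/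
noncomputable def cofSN : Cardinal.{0} :=
  sInf {κ | ∃ F : Set (Set ℝ), (∀ S ∈ F, StrongMeasureZero S) ∧
    (∀ X, StrongMeasureZero X → ∃ S ∈ F, X ⊆ S) ∧ Cardinal.mk F = κ}

/-- The uniformity of the ideal of strong measure zero sets. -/
noncomputable def nonSN : Cardinal.{0} :=
  sInf {κ | ∃ X : Set ℝ, ¬ StrongMeasureZero X ∧ Cardinal.mk X = κ}

/-- The bounding number. -/
noncomputable def bounding : Cardinal.{0} :=
  sInf {κ | ∃ B : Set (ℕ → ℕ),
    (¬ ∃ g : ℕ → ℕ, ∀ f ∈ B, ∀ᶠ n in Filter.atTop, f n ≤ g n) ∧ Cardinal.mk B = κ}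

end Pool.Agent.H92.SN
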