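import Mathlib
import Pool.Agent.H92.SNDefs

/-!
Basic facts about strong measure zero sets in metric spaces.
-/

namespace Pool.Agent.H92.SN

open Set Filter Cardinal Topology

/-- Strong measure zero in a metric space, by sets of small diameter. -/
def SM {α : Type*} [PseudoMetricSpace α] (X : Set α) : Prop :=
  ∀ ε : ℕ → ℝ, (∀ n, 0 < ε n) → ∃ S : ℕ → Set α,
    (∀ n, ∀ x ∈ S n, ∀ y ∈ S n, dist x y < ε n) ∧ X ⊆ ⋃ n, S n

theorem SM.mono {α : Type*} [PseudoMetricSpace α] {X Y : Set α} (hY : SM Y) (h : X ⊆ Y) : SM X := by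
  intro ε hε
  obtain ⟨S, hS, hc⟩ := hY ε hε
  exact ⟨S, hS, h.trans hc⟩

theorem smz_iff (X : Set ℝ) : StrongMeasureZero X ↔ SM X := by
  constructor
  · intro h ε hε
    obtain ⟨a, b, hab, hc⟩ := h ε hε
    refine ⟨fun n => Icc (a n) (b n), ?_, hc⟩
    intro n x hx y hy
    rw [Real.dist_eq, abs_lt]
    have := hab n
    constructor <;> linarith [hx.1, hx.2, hy.1, hy.2]
  · intro h ε hε
    obtain ⟨S, hS, hc⟩ := h (fun n => ε n / 4) (fun n => by have := hε n; positivity)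
    classical
    refine ⟨fun n => if hn : (S n).Nonempty then hn.some - ε n / 4 else 0,
      fun n => if hn : (S n).Nonempty then hn.some + ε n / 4 else 0, ?_, ?_⟩
    · intro n
      have := hε n
      by_cases hn : (S n).Nonempty
      · simp only [hn, dif_pos]; linarith
      · simp only [hn, dif_neg, not_false_eq_true]; linarith
    · intro x hx
      obtain ⟨n, hxn⟩ := mem_iUnion.1 (hc hx)
      refine mem_iUnion.2 ⟨n, ?_⟩
      have hn : (S n).Nonempty := ⟨x, hxn⟩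
      simp only [hn, dif_pos]
      have := hS n x hxn _ hn.some_mem
      rw [Real.dist_eq, abs_lt] at this
      constructor <;> linarith [this.1, this.2]

theorem SM.iUnion {α : Type*} [PseudoMetricSpace α] {X : ℕ → Set α} (h : ∀ n, SM (X n)) :
    SM (⋃ n, X n) := by
  intro ε hε
  have h' : ∀ k, ∃ S : ℕ → Set α,
      (∀ n, ∀ x ∈ S n, ∀ y ∈ S n, dist x y < ε (Nat.pair k n)) ∧ X k ⊆ ⋃ n, S n :=
    fun k => h k (fun n => ε (Nat.pair k n)) (fun n => hε _)
  choose S hS hc using h'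
  refine ⟨fun m => S (Nat.unpair m).1 (Nat.unpair m).2, ?_, ?_⟩
  · intro m x hx y hy
    have := hS (Nat.unpair m).1 (Nat.unpair m).2 x hx y hy
    rwa [Nat.pair_unpair] at this
  · intro x hx
    obtain ⟨k, hk⟩ := mem_iUnion.1 hx
    obtain ⟨n, hn⟩ := mem_iUnion.1 (hc k hk)
    refine mem_iUnion.2 ⟨Nat.pair k n, ?_⟩
    simpa using hn

theorem SM.union {α : Type*} [PseudoMetricSpace α] {X Y : Set α} (hX : SM X) (hY : SM Y) :
    SM (X ∪ Y) := by
  have h : SM (⋃ n : ℕ, if n = 0 then X else Y) := by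
    apply SM.iUnion
    intro n
    split_ifs
    exacts [hX, hY]
  refine h.mono ?_
  rintro x (hx | hx)
  · exact mem_iUnion.2 ⟨0, by simpa using hx⟩
  · exact mem_iUnion.2 ⟨1, by simpa using hx⟩

theorem SM.of_countable {α : Type*} [PseudoMetricSpace α] {X : Set α} (h : X.Countable) :
    SM X := by
  intro ε hε
  rcases X.eq_empty_or_nonempty with rfl | hne
  · exact ⟨fun _ => ∅, by simp, by simp⟩
  · obtain ⟨f, hf⟩ := h.exists_eq_range hne
    refine ⟨fun n => {f n}, ?_, ?_⟩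
    · intro n x hx y hy
      rw [mem_singleton_iff] at hx hy
      subst hx; subst hy
      simpa using hε n
    · rw [hf]
      rintro _ ⟨n, rfl⟩
      exact mem_iUnion.2 ⟨n, rfl⟩

/-- Every point is covered infinitely often. -/
theorem SM.io {α : Type*} [PseudoMetricSpace α] {X : Set α} (h : SM X) (ε : ℕ → ℝ)
    (hε : ∀ n, 0 < ε n) : ∃ S : ℕ → Set α,
    (∀ n, ∀ x ∈ S n, ∀ y ∈ S n, dist x y < ε n) ∧ ∀ x ∈ X, ∀ N, ∃ n, N ≤ n ∧ x ∈ S n := by
  have h' : ∀ k, ∃ S : ℕ → Set α,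
      (∀ n, ∀ x ∈ S n, ∀ y ∈ S n, dist x y < ε (Nat.pair k n)) ∧ X ⊆ ⋃ n, S n :=
    fun k => h (fun n => ε (Nat.pair k n)) (fun n => hε _)
  choose S hS hc using h'
  refine ⟨fun m => S (Nat.unpair m).1 (Nat.unpair m).2, ?_, ?_⟩
  · intro m x hx y hy
    have := hS (Nat.unpair m).1 (Nat.unpair m).2 x hx y hy
    rwa [Nat.pair_unpair] at this
  · intro x hx N
    obtain ⟨n, hn⟩ := mem_iUnion.1 (hc N hx)
    exact ⟨Nat.pair N n, Nat.left_le_pair N n, by simpa using hn⟩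

/-- A uniformly continuous image. -/
theorem SM.image {α β : Type*} [PseudoMetricSpace α] [PseudoMetricSpace β] {X : Set α} (h : SM X)
    {f : α → β} (hf : UniformContinuousOn f X) : SM (f '' X) := by
  intro ε hε
  have h1 : ∀ n, ∃ δ > 0, ∀ x ∈ X, ∀ y ∈ X, dist x y < δ → dist (f x) (f y) < ε n :=
    fun n => by
      obtain ⟨δ, hδ, h⟩ := Metric.uniformContinuousOn_iff.1 hf (ε n) (hε n)
      exact ⟨δ, hδ, fun x hx y hy hxy => h x hx y hy hxy⟩
  choose δ hδ hfδ using h1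
  obtain ⟨S, hS, hc⟩ := h δ hδ
  refine ⟨fun n => f '' (S n ∩ X), ?_, ?_⟩
  · rintro n _ ⟨x, hx, rfl⟩ _ ⟨y, hy, rfl⟩
    exact hfδ n x hx.2 y hy.2 (hS n x hx.1 y hy.1)
  · rintro _ ⟨x, hx, rfl⟩
    obtain ⟨n, hn⟩ := mem_iUnion.1 (hc hx)
    exact mem_iUnion.2 ⟨n, x, ⟨hn, hx⟩, rfl⟩

/-- Fewer than `bounding` many functions are bounded. -/
theorem exists_bound_of_lt {ι : Type} (g : ι → ℕ → ℕ) (h : #ι < bounding) :
    ∃ f : ℕ → ℕ, ∀ i, ∀ᶠ n in atTop, g i n ≤ f n := by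
  by_contra hcon
  have h1 : bounding ≤ #(range g) := by
    apply csInf_le'
    refine ⟨range g, ?_, rfl⟩
    rintro ⟨f, hf⟩
    exact hcon ⟨f, fun i => hf _ ⟨i, rfl⟩⟩
  exact absurd (h1.trans mk_range_le) (not_le.2 h)

theorem exists_bounding_family : ∃ B : Set (ℕ → ℕ),
    (¬ ∃ g : ℕ → ℕ, ∀ f ∈ B, ∀ᶠ n in atTop, f n ≤ g n) ∧ #B = bounding := by
  have hne : {κ : Cardinal.{0} | ∃ B : Set (ℕ → ℕ),
    (¬ ∃ g : ℕ → ℕ, ∀ f ∈ B, ∀ᶠ n in atTop, f n ≤ g n) ∧ #B = κ}.Nonempty := by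
    refine ⟨_, univ, ?_, rfl⟩
    rintro ⟨g, hg⟩
    have := hg (fun n => g n + 1) (mem_univ _)
    obtain ⟨n, hn⟩ := this.exists
    omega
  exact csInf_mem hne

theorem aleph0_lt_bounding : ℵ₀ < bounding := by
  obtain ⟨B, hB, hc⟩ := exists_bounding_family
  rw [← hc]
  by_contra hcon
  have hcount : B.Countable := by
    rw [← Set.countable_coe_iff, ← Cardinal.mk_le_aleph0_iff]
    exact not_lt.1 hcon
  apply hB
  rcases B.eq_empty_or_nonempty with rfl | hne
  · exact ⟨0, by simp⟩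
  · obtain ⟨f, hf⟩ := hcount.exists_eq_range hne
    refine ⟨fun n => (Finset.range (n + 1)).sup fun k => f k n, ?_⟩
    rw [hf]
    rintro _ ⟨k, rfl⟩
    filter_upwards [eventually_ge_atTop k] with n hn
    exact Finset.le_sup (f := fun k => f k n) (Finset.mem_range.2 (by omega))

theorem aleph_one_le_bounding : ℵ₁ ≤ bounding := by
  rw [← succ_aleph0]
  exact Order.succ_le_of_lt aleph0_lt_bounding

theorem aleph0_lt_nonSN : ℵ₀ < nonSN := by
  have hne : {κ : Cardinal.{0} | ∃ X : Set ℝ, ¬ StrongMeasureZero X ∧ #X = κ}.Nonempty := by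
    refine ⟨_, univ, ?_, rfl⟩
    intro h
    obtain ⟨a, b, hab, hc⟩ := h (fun n => (1 / 2) ^ (n + 1)) (fun n => by positivity)
    have h1 : MeasureTheory.volume (univ : Set ℝ) ≤ ∑' n, ENNReal.ofReal ((1 / 2) ^ (n + 1)) := by
      calc MeasureTheory.volume (univ : Set ℝ)
          ≤ MeasureTheory.volume (⋃ n, Icc (a n) (b n)) := MeasureTheory.measure_mono hc
        _ ≤ ∑' n, MeasureTheory.volume (Icc (a n) (b n)) := MeasureTheory.measure_iUnion_le _
        _ ≤ ∑' n, ENNReal.ofReal ((1 / 2) ^ (n + 1)) := by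
            refine ENNReal.tsum_le_tsum fun n => ?_
            rw [Real.volume_Icc]
            exact ENNReal.ofReal_le_ofReal (hab n).le
    rw [Real.volume_univ, ← ENNReal.ofReal_tsum_of_nonneg] at h1
    · exact absurd (top_le_iff.1 h1) ENNReal.ofReal_ne_top
    · intro n; positivity
    · have := summable_geometric_two
      exact (summable_nat_add_iff 1).2 this
  obtain ⟨X, hX, hc⟩ := csInf_mem hne
  change ℵ₀ < sInf _
  rw [← hc]
  by_contra hcon
  apply hX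
  rw [smz_iff]
  apply SM.of_countable
  rw [← Set.countable_coe_iff, ← Cardinal.mk_le_aleph0_iff]
  exact not_lt.1 hcon

theorem smz_of_lt_nonSN {X : Set ℝ} (h : #X < nonSN) : StrongMeasureZero X := by
  by_contra hcon
  have : nonSN ≤ #X := csInf_le' ⟨X, hcon, rfl⟩
  exact absurd this (not_le.2 h)

theorem exists_cof_family : ∃ F : Set (Set ℝ), (∀ S ∈ F, StrongMeasureZero S) ∧
    (∀ X, StrongMeasureZero X → ∃ S ∈ F, X ⊆ S) ∧ #F = cofSN := by
  have hne : {κ : Cardinal.{0} | ∃ F : Set (Set ℝ), (∀ S ∈ F, StrongMeasureZero S) ∧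
    (∀ X, StrongMeasureZero X → ∃ S ∈ F, X ⊆ S) ∧ #F = κ}.Nonempty :=
    ⟨_, {S | StrongMeasureZero S}, fun S hS => hS, fun X hX => ⟨X, hX, subset_rfl⟩, rfl⟩
  exact csInf_mem hne

end Pool.Agent.H92.SN
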