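import Mathlib
import Pool.Agent.H92.SNBasic

/-!
Concentrated sets and the cofinality of the strong measure zero ideal.
-/

namespace Pool.Agent.H92.SN

open Set Filter Cardinal Topology

theorem exists_cantor_injection : ∃ Φ : (ℕ → Bool) → ℝ, Continuous Φ ∧ Function.Injective Φ := by
  obtain ⟨f, -, hf, hi⟩ :=
    (isClosed_univ (X := ℝ)).exists_nat_bool_injection_of_not_countable
      (by
        intro h
        have h1 : Countable ℝ := countable_univ_iff.1 h
        exact absurd (Cardinal.mk_le_aleph0_iff.2 h1)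
          (by rw [Cardinal.mk_real, not_le]; exact Cardinal.aleph0_lt_continuum))
  exact ⟨f, hf, hi⟩

theorem exists_sep {Φ : (ℕ → Bool) → ℝ} (hc : Continuous Φ) (hi : Function.Injective Φ) (n : ℕ) :
    ∃ ε > 0, ∀ z w, dist (Φ z) (Φ w) < ε → z n = w n := by
  have hK : IsCompact {p : (ℕ → Bool) × (ℕ → Bool) | p.1 n ≠ p.2 n} := by
    apply IsClosed.isCompact
    have : IsClopen {p : (ℕ → Bool) × (ℕ → Bool) | p.1 n = p.2 n} := by
      have hcont : Continuous (fun p : (ℕ → Bool) × (ℕ → Bool) => (p.1 n, p.2 n)) := by fun_prop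
      exact (isClopen_discrete {q : Bool × Bool | q.1 = q.2}).preimage hcont
    exact this.compl.isClosed
  have hne : {p : (ℕ → Bool) × (ℕ → Bool) | p.1 n ≠ p.2 n}.Nonempty :=
    ⟨(fun _ => true, fun _ => false), by simp⟩
  have hcd : Continuous (fun p : (ℕ → Bool) × (ℕ → Bool) => dist (Φ p.1) (Φ p.2)) := by fun_prop
  obtain ⟨p, hp, hmin⟩ := hK.exists_isMinOn hne hcd.continuousOn
  refine ⟨dist (Φ p.1) (Φ p.2), ?_, ?_⟩
  · apply dist_pos.2
    intro h
    exact hp (congrFun (hi h) n)
  · intro z w h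
    by_contra hcon
    exact absurd (hmin (show (z, w) ∈ _ from hcon)) (not_le.2 h)

theorem not_SM_range {Φ : (ℕ → Bool) → ℝ} (hc : Continuous Φ) (hi : Function.Injective Φ) :
    ¬ SM (range Φ) := by
  intro h
  choose ε hε hsep using exists_sep hc hi
  obtain ⟨S, hS, hcov⟩ := h ε hε
  classical
  set z : ℕ → Bool := fun n => if h : ∃ w, Φ w ∈ S n then !(h.choose n) else false with hz
  obtain ⟨n, hn⟩ := mem_iUnion.1 (hcov ⟨z, rfl⟩)
  have hex : ∃ w, Φ w ∈ S n := ⟨z, hn⟩
  have h1 : z n = !(hex.choose n) := by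
    simp only [hz, hex, dif_pos]
  have h2 := hsep n z hex.choose (hS n _ hn _ hex.choose_spec)
  rw [h1] at h2
  cases h3 : hex.choose n <;> rw [h3] at h2 <;> simp at h2

open Classical in
/-- The characteristic function of the set of all `G n + z n`. -/
noncomputable def chi (G : ℕ → ℕ) (z : ℕ → Bool) : ℕ → Bool :=
  fun m => decide (∃ n, G n + (z n).toNat = m)

theorem chi_eq_true {G : ℕ → ℕ} {z : ℕ → Bool} {m : ℕ} :
    chi G z m = true ↔ ∃ n, G n + (z n).toNat = m := by
  simp [chi]

theorem le_of_step {G : ℕ → ℕ} (hG : ∀ n, G n + 1 < G (n + 1)) : StrictMono G :=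
  strictMono_nat_of_lt_succ (fun n => by have := hG n; omega)

theorem step_lt {G : ℕ → ℕ} (hG : ∀ n, G n + 1 < G (n + 1)) {k n : ℕ} (h : k < n) :
    G k + 1 < G n := by
  have h1 := hG k
  have h2 : G (k + 1) ≤ G n := (le_of_step hG).monotone h
  omega

theorem chi_continuous {G : ℕ → ℕ} (hG : ∀ n, G n + 1 < G (n + 1)) : Continuous (chi G) := by
  apply continuous_pi
  intro m
  classical
  let F : (Fin (m + 1) → Bool) → Bool := fun u => decide (∃ k : Fin (m + 1), G k + (u k).toNat = m)
  have hF : (fun z : ℕ → Bool => chi G z m) = F ∘ (fun z (k : Fin (m + 1)) => z k) := by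
    funext z
    simp only [Function.comp, F, chi]
    congr 1
    apply propext
    constructor
    · rintro ⟨n, hn⟩
      have : n ≤ m := by
        have := (le_of_step hG).id_le n
        simp at this
        omega
      exact ⟨⟨n, by omega⟩, hn⟩
    · rintro ⟨k, hk⟩
      exact ⟨k, hk⟩
  rw [hF]
  apply Continuous.comp
  · exact continuous_of_discreteTopology
  · fun_prop

theorem chi_injective {G : ℕ → ℕ} (hG : ∀ n, G n + 1 < G (n + 1)) :
    Function.Injective (chi G) := by
  have key : ∀ z w : ℕ → Bool, chi G z = chi G w → ∀ n, z n = false → w n = false := by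
    intro z w h n hz
    have h1 : chi G z (G n) = true := chi_eq_true.2 ⟨n, by simp [hz]⟩
    rw [h] at h1
    obtain ⟨k, hk⟩ := chi_eq_true.1 h1
    have hb : (w k).toNat ≤ 1 := Bool.toNat_le _
    rcases lt_trichotomy k n with hlt | heq | hgt
    · have := step_lt hG hlt
      omega
    · subst heq
      cases hw : w k
      · rfl
      · rw [hw] at hk; simp at hk
    · have := step_lt hG hgt
      omega
  intro z w h
  funext n
  cases hz : z n
  · exact (key z w h n hz).symm
  · cases hw : w n
    · have := key w z h.symm n hw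
      rw [hz] at this
      exact this
    · rfl

/-- The characteristic function of a finite set. -/
def fchi (s : Finset ℕ) : ℕ → Bool := fun m => decide (m ∈ s)

theorem continuous_near {Φ : (ℕ → Bool) → ℝ} (hc : Continuous Φ) (a : ℕ → Bool) {ε : ℝ}
    (hε : 0 < ε) : ∃ N : ℕ, ∀ b : ℕ → Bool, (∀ m < N, b m = a m) → dist (Φ b) (Φ a) < ε := by
  have h1 : Φ ⁻¹' (Metric.ball (Φ a) ε) ∈ 𝓝 a :=
    hc.continuousAt.preimage_mem_nhds (Metric.ball_mem_nhds _ hε)
  rw [nhds_pi, Filter.mem_pi] at h1
  obtain ⟨I, hI, t, ht, hsub⟩ := h1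
  obtain ⟨N, hN⟩ := hI.bddAbove
  refine ⟨N + 1, fun b hb => ?_⟩
  have : b ∈ Set.pi I t := by
    intro i hi
    rw [hb i (by have := hN hi; omega)]
    exact mem_of_mem_nhds (ht i)
  exact hsub this

/-- The main diagonalisation. -/
theorem lt_cofSN_of_family {ι : Type} (g : ι → ℕ → ℕ)
    (hg : ∀ f : ℕ → ℕ, #{i | ∀ᶠ n in atTop, g i n ≤ f n} < nonSN) : #ι < cofSN := by
  by_contra hcon
  rw [not_lt] at hcon
  obtain ⟨F, hF, hFc, hFcard⟩ := exists_cof_family
  rw [← hFcard] at hcon
  obtain ⟨e⟩ := Cardinal.le_def _ _ |>.1 hcon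
  classical
  -- the indexed base
  obtain ⟨X, hX, hXc⟩ : ∃ X : ι → Set ℝ, (∀ i, StrongMeasureZero (X i)) ∧
      ∀ Y, StrongMeasureZero Y → ∃ i, Y ⊆ X i := by
    refine ⟨fun i => if h : ∃ S : F, e S = i then (h.choose : Set ℝ) else ∅, ?_, ?_⟩
    · intro i
      by_cases h : ∃ S : F, e S = i
      · simp only [h, dif_pos]
        exact hF _ h.choose.2
      · simp only [h, dif_neg, not_false_eq_true]
        rw [smz_iff]
        exact SM.of_countable countable_empty
    · intro Y hY
      obtain ⟨S, hS, hYS⟩ := hFc Y hY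
      have h : ∃ S' : F, e S' = e ⟨S, hS⟩ := ⟨⟨S, hS⟩, rfl⟩
      refine ⟨e ⟨S, hS⟩, ?_⟩
      simp only [h, dif_pos]
      have h2 := e.injective h.choose_spec
      rw [h2]
      exact hYS
  obtain ⟨Φ, hΦc, hΦi⟩ := exists_cantor_injection
  set G : ι → ℕ → ℕ := fun i n => ∑ k ∈ Finset.range (n + 1), (g i k + 2) with hGdef
  have hG : ∀ i n, G i n + 1 < G i (n + 1) := by
    intro i n
    have : G i (n + 1) = G i n + (g i (n + 1) + 2) := by
      simp only [hGdef]
      rw [Finset.sum_range_succ]
    omega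
  have hgG : ∀ i n, g i n ≤ G i n := by
    intro i n
    have : g i n + 2 ≤ G i n := by
      simp only [hGdef]
      exact Finset.single_le_sum (f := fun k => g i k + 2) (fun _ _ => Nat.zero_le _)
        (Finset.self_mem_range_succ n)
    omega
  -- the diagonal points
  have hpick : ∀ i, ∃ z : ℕ → Bool, Φ (chi (G i) z) ∉ X i := by
    intro i
    by_contra h
    push Not at h
    have h1 : SM (range (Φ ∘ chi (G i))) := by
      refine ((smz_iff _).1 (hX i)).mono ?_
      rintro _ ⟨z, rfl⟩
      exact h z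
    exact not_SM_range (hΦc.comp (chi_continuous (hG i))) (hΦi.comp (chi_injective (hG i))) h1
  choose z hz using hpick
  set x : ι → ℝ := fun i => Φ (chi (G i) (z i)) with hx
  have hSM : StrongMeasureZero (range x) := by
    rw [smz_iff]
    intro ε hε
    -- neighbourhoods of the countable set
    have hN : ∀ s : Finset ℕ, ∃ N : ℕ, ∀ b : ℕ → Bool, (∀ m < N, b m = fchi s m) →
        dist (Φ b) (Φ (fchi s)) < ε (2 * Encodable.encode s) / 2 :=
      fun s => continuous_near hΦc _ (by have := hε (2 * Encodable.encode s); positivity)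
    choose N hN using hN
    set U : Set ℝ := ⋃ s : Finset ℕ, Metric.ball (Φ (fchi s)) (ε (2 * Encodable.encode s) / 2)
      with hU
    set T : Set ι := {i | x i ∉ U} with hT
    set H : ℕ → ℕ := fun n => (Finset.range n).powerset.sup N with hH
    have hHmono : Monotone H := by
      intro a b hab
      apply Finset.sup_mono
      exact Finset.powerset_mono.2 (Finset.range_mono hab)
    set f : ℕ → ℕ := fun n => Nat.rec (H 0) (fun _ r => H (r + 1)) n with hf
    have hf0 : f 0 = H 0 := rfl
    have hf1 : ∀ n, f (n + 1) = H (f n + 1) := fun n => rfl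
    have hTf : ∀ i ∈ T, ∀ n, G i n + (z i n).toNat ≤ f n := by
      intro i hi
      -- general step
      have hstep : ∀ n, G i n + (z i n).toNat <
          N ((Finset.range n).image (fun k => G i k + (z i k).toNat)) := by
        intro n
        by_contra hlt
        rw [not_lt] at hlt
        apply hi
        refine mem_iUnion.2 ⟨(Finset.range n).image (fun k => G i k + (z i k).toNat), ?_⟩
        apply hN
        intro m hm
        have hmn : m < G i n + (z i n).toNat := lt_of_lt_of_le hm hlt
        rw [Bool.eq_iff_iff, chi_eq_true]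
        simp only [fchi, decide_eq_true_eq, Finset.mem_image, Finset.mem_range]
        constructor
        · rintro ⟨k, hk⟩
          refine ⟨k, ?_, hk⟩
          by_contra hkn
          rw [not_lt] at hkn
          rcases eq_or_lt_of_le hkn with heq | hlt'
          · subst heq; omega
          · have h1 := step_lt (hG i) hlt'
            have h2 : (z i n).toNat ≤ 1 := Bool.toNat_le _
            omega
        · rintro ⟨k, -, hk⟩
          exact ⟨k, hk⟩
      intro n
      induction n with
      | zero =>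
        have h1 := hstep 0
        have h2 : N ((Finset.range 0).image (fun k => G i k + (z i k).toNat)) ≤ H 0 := by
          apply Finset.le_sup (f := N)
          simp
        rw [hf0]; omega
      | succ n ih =>
        have h1 := hstep (n + 1)
        have h2 : N ((Finset.range (n + 1)).image (fun k => G i k + (z i k).toNat))
            ≤ H (f n + 1) := by
          apply Finset.le_sup (f := N)
          rw [Finset.mem_powerset]
          intro m hm
          obtain ⟨k, hk, rfl⟩ := Finset.mem_image.1 hm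
          rw [Finset.mem_range] at hk ⊢
          rcases eq_or_lt_of_le (Nat.lt_succ_iff.1 hk) with heq | hlt'
          · subst heq; omega
          · have h3 := step_lt (hG i) hlt'
            have h4 : (z i k).toNat ≤ 1 := Bool.toNat_le _
            omega
        rw [hf1]; omega
    have hTcard : #T < nonSN := by
      refine lt_of_le_of_lt (Cardinal.mk_le_mk_of_subset ?_) (hg f)
      intro i hi
      refine Eventually.of_forall fun n => ?_
      have h1 := hTf i hi n
      have h2 := hgG i n
      omega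
    have hxT : SM (x '' T) := by
      rw [← smz_iff]
      exact smz_of_lt_nonSN (lt_of_le_of_lt Cardinal.mk_image_le hTcard)
    obtain ⟨S', hS', hc'⟩ := hxT (fun n => ε (2 * n + 1)) (fun n => hε _)
    refine ⟨fun m => if m % 2 = 0 then
        Metric.ball (Φ (fchi ((Encodable.decode (α := Finset ℕ) (m / 2)).getD ∅))) (ε m / 2)
      else S' (m / 2), ?_, ?_⟩
    · intro m
      by_cases hm : m % 2 = 0
      · simp only [hm, if_true]
        intro a ha b hb
        rw [Metric.mem_ball] at ha hb
        calc dist a b ≤ dist a _ + dist b _ := dist_triangle_right a b _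
          _ < ε m / 2 + ε m / 2 := add_lt_add ha hb
          _ = ε m := by ring
      · simp only [hm, if_false]
        intro a ha b hb
        have := hS' (m / 2) a ha b hb
        have h2 : 2 * (m / 2) + 1 = m := by omega
        simpa [h2] using this
    · rintro _ ⟨i, rfl⟩
      by_cases hi : x i ∈ U
      · obtain ⟨s, hs⟩ := mem_iUnion.1 hi
        refine mem_iUnion.2 ⟨2 * Encodable.encode s, ?_⟩
        have h1 : (2 * Encodable.encode s) % 2 = 0 := by omega
        have h2 : (2 * Encodable.encode s) / 2 = Encodable.encode s := by omega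
        simp only [h1, if_true, h2, Encodable.encodek, Option.getD_some]
        exact hs
      · obtain ⟨n, hn⟩ := mem_iUnion.1 (hc' ⟨i, hi, rfl⟩)
        refine mem_iUnion.2 ⟨2 * n + 1, ?_⟩
        have h1 : (2 * n + 1) % 2 ≠ 0 := by omega
        have h2 : (2 * n + 1) / 2 = n := by omega
        simp only [h1, if_false, h2]
        exact hn
  obtain ⟨i, hi⟩ := hXc _ hSM
  exact hz i (hi ⟨i, rfl⟩)

/-- If `bounding ≤ nonSN` then `bounding < cofSN`. -/
theorem bounding_lt_cofSN (h : bounding ≤ nonSN) : bounding < cofSN := by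
  obtain ⟨B, hB, hBc⟩ := exists_bounding_family
  -- well order B in its initial order type
  obtain ⟨r, hwo, hr⟩ := Cardinal.exists_ord_eq B
  have hlt : ∀ b : B, #{c : B | r c b} < bounding := by
    intro b
    rw [← hBc]
    have h1 : #{c : B | r c b} = (Ordinal.typein r b).card := rfl
    rw [h1]
    have h2 : Ordinal.typein r b < (#B).ord := by rw [hr]; exact Ordinal.typein_lt_type r b
    exact Cardinal.lt_ord.1 h2
  have hinf : ℵ₀ < bounding := aleph0_lt_bounding
  have hex : ∀ b : B, ∃ f : ℕ → ℕ, ∀ c : B, (r c b ∨ c = b) →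
      ∀ᶠ n in atTop, (c : ℕ → ℕ) n ≤ f n := by
    intro b
    obtain ⟨f, hf⟩ := exists_bound_of_lt (ι := {c : B | r c b}) (fun c => (c.1 : ℕ → ℕ)) (hlt b)
    refine ⟨fun n => max (f n) ((b : ℕ → ℕ) n), ?_⟩
    rintro c (hc | rfl)
    · filter_upwards [hf ⟨c, hc⟩] with n hn
      exact le_max_of_le_left hn
    · exact Eventually.of_forall fun n => le_max_right _ _
  choose g hg using hex
  have hmain := lt_cofSN_of_family (ι := B) g ?_
  · rwa [hBc] at hmain
  · intro f
    refine lt_of_lt_of_le ?_ h
    -- the set of indices is not cofinal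
    have hnb : ∃ b : B, ∀ c ∈ {i : B | ∀ᶠ n in atTop, g i n ≤ f n}, r c b := by
      by_contra hcon
      push Not at hcon
      apply hB
      refine ⟨f, fun b hb => ?_⟩
      obtain ⟨c, hc, hcb⟩ := hcon ⟨b, hb⟩
      have hle : r ⟨b, hb⟩ c ∨ (⟨b, hb⟩ : B) = c := by
        rcases trichotomous_of r ⟨b, hb⟩ c with h1 | h1 | h1
        · exact Or.inl h1
        · exact Or.inr h1
        · exact absurd h1 hcb
      filter_upwards [hg c ⟨b, hb⟩ hle, hc] with n h1 h2
      exact h1.trans h2
    obtain ⟨b, hb⟩ := hnb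
    exact lt_of_le_of_lt (Cardinal.mk_le_mk_of_subset hb) (hlt b)

/-- The dominating number. -/
noncomputable def dominating : Cardinal.{0} :=
  sInf {κ | ∃ D : Set (ℕ → ℕ),
    (∀ g : ℕ → ℕ, ∃ f ∈ D, ∀ᶠ n in atTop, g n ≤ f n) ∧ #D = κ}

/-- If `dominating ≤ nonSN` then `dominating < cofSN`. -/
theorem dominating_lt_cofSN (h : dominating ≤ nonSN) : dominating < cofSN := by
  obtain ⟨D, hD, hDc⟩ : ∃ D : Set (ℕ → ℕ),
      (∀ g : ℕ → ℕ, ∃ f ∈ D, ∀ᶠ n in atTop, g n ≤ f n) ∧ #D = dominating := by
    have hne : {κ : Cardinal.{0} | ∃ D : Set (ℕ → ℕ),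
        (∀ g : ℕ → ℕ, ∃ f ∈ D, ∀ᶠ n in atTop, g n ≤ f n) ∧ #D = κ}.Nonempty :=
      ⟨_, univ, fun g => ⟨g, mem_univ _, Eventually.of_forall fun n => le_rfl⟩, rfl⟩
    exact csInf_mem hne
  obtain ⟨r, hwo, hr⟩ := Cardinal.exists_ord_eq D
  have hlt : ∀ b : D, #{c : D | r c b} < dominating := by
    intro b
    rw [← hDc]
    have h1 : #{c : D | r c b} = (Ordinal.typein r b).card := rfl
    rw [h1]
    have h2 : Ordinal.typein r b < (#D).ord := by rw [hr]; exact Ordinal.typein_lt_type r b
    exact Cardinal.lt_ord.1 h2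
  have hex : ∀ b : D, ∃ g : ℕ → ℕ, ∀ c : D, r c b →
      ¬ ∀ᶠ n in atTop, g n ≤ (c : ℕ → ℕ) n := by
    intro b
    by_contra hcon
    have h1 : dominating ≤ #((fun c : D => (c : ℕ → ℕ)) '' {c : D | r c b}) := by
      apply csInf_le'
      refine ⟨_, ?_, rfl⟩
      intro g
      by_contra hg
      apply hcon
      exact ⟨g, fun c hc hgc => hg ⟨c, ⟨c, hc, rfl⟩, hgc⟩⟩
    exact absurd (h1.trans Cardinal.mk_image_le) (not_le.2 (hlt b))
  choose g hg using hex
  have hmain := lt_cofSN_of_family (ι := D) g ?_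
  · rwa [hDc] at hmain
  · intro f
    refine lt_of_lt_of_le ?_ h
    obtain ⟨d, hd, hfd⟩ := hD f
    -- all indices which are bounded by `f` are at most `d`
    have hsub : {i : D | ∀ᶠ n in atTop, g i n ≤ f n} ⊆ {c : D | ¬ r ⟨d, hd⟩ c} := by
      intro c hc hdc
      apply hg c ⟨d, hd⟩ hdc
      filter_upwards [hc, hfd] with n h1 h2
      exact h1.trans h2
    rcases em (∃ c : D, r ⟨d, hd⟩ c) with ⟨c, hc⟩ | hno
    · refine lt_of_le_of_lt (Cardinal.mk_le_mk_of_subset (hsub.trans ?_)) (hlt c)
      intro e he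
      change r e c
      rcases trichotomous_of r e ⟨d, hd⟩ with h1 | h1 | h1
      · exact _root_.trans h1 hc
      · rw [h1]; exact hc
      · exact absurd h1 he
    · -- the order has a largest element, impossible for an infinite cardinal
      exfalso
      have huniv : ∀ g' : ℕ → ℕ, ∀ᶠ n in atTop, g' n ≤ g' n := fun _ => Eventually.of_forall
        fun _ => le_rfl
      have hinf : ℵ₀ ≤ #D := by
        by_contra hfin
        rw [not_le, Cardinal.lt_aleph0_iff_finite] at hfin
        have hfs : (D : Set (ℕ → ℕ)).Finite := Set.toFinite D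
        obtain ⟨e, he, h1⟩ := hD (fun n => (∑ c ∈ hfs.toFinset, c n) + 1)
        obtain ⟨n, hn⟩ := h1.exists
        have h2 : e n ≤ ∑ c ∈ hfs.toFinset, c n :=
          Finset.single_le_sum (f := fun c : ℕ → ℕ => c n) (fun _ _ => Nat.zero_le _)
            (hfs.mem_toFinset.2 he)
        omega
      have h1 : #D ≤ #{c : D | r c ⟨d, hd⟩} + 1 := by
        have h2 : (univ : Set D) ⊆ {c : D | r c ⟨d, hd⟩} ∪ {⟨d, hd⟩} := by
          intro c _
          rcases trichotomous_of r c ⟨d, hd⟩ with h3 | h3 | h3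
          · exact Or.inl h3
          · exact Or.inr h3
          · exact absurd ⟨c, h3⟩ hno
        calc #D = #(univ : Set D) := Cardinal.mk_univ.symm
          _ ≤ #(({c : D | r c ⟨d, hd⟩} ∪ {⟨d, hd⟩} : Set D)) := Cardinal.mk_le_mk_of_subset h2
          _ ≤ #{c : D | r c ⟨d, hd⟩} + #({⟨d, hd⟩} : Set D) := Cardinal.mk_union_le _ _
          _ = #{c : D | r c ⟨d, hd⟩} + 1 := by rw [Cardinal.mk_singleton]
      have h2 := hlt ⟨d, hd⟩
      rw [← hDc] at h2
      have h3 : #{c : D | r c ⟨d, hd⟩} + 1 < #D :=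
        Cardinal.add_lt_of_lt hinf h2 (lt_of_lt_of_le Cardinal.one_lt_aleph0 hinf)
      exact absurd h1 (not_le.2 h3)

theorem aleph_one_lt_or : ℵ₁ < bounding ∨ ℵ₁ < cofSN := by
  rcases eq_or_lt_of_le aleph_one_le_bounding with h | h
  · right
    have h1 : bounding ≤ nonSN := by
      rw [← h, ← succ_aleph0]
      exact Order.succ_le_of_lt aleph0_lt_nonSN
    have := bounding_lt_cofSN h1
    rwa [← h] at this
  · exact Or.inl h

end Pool.Agent.H92.SN
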