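import Mathlib
import Pool.Agent.H92.SNConc

/-!
Consequences of `cofSN = aleph 1`.
-/

namespace Pool.Agent.H92.SN

open Set Filter Cardinal Topology

/-- Block form of strong measure zero for sets of size less than `bounding`. -/
theorem SM.block {α : Type} [PseudoMetricSpace α] {X : Set α} (h : SM X) (hX : #X < bounding)
    (ε : ℕ → ℝ) (hε : ∀ n, 0 < ε n) : ∃ (S : ℕ → Set α) (κ : ℕ → ℕ),
    (∀ n, ∀ x ∈ S n, ∀ y ∈ S n, dist x y < ε n) ∧ (∀ k, {m | κ m = k}.Finite) ∧
    ∀ x ∈ X, ∃ K, ∀ k ≥ K, ∃ m, κ m = k ∧ x ∈ S m := by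
  obtain ⟨S, hS, hc⟩ := h.io ε hε
  choose! p hp hpS using hc
  obtain ⟨q, hq⟩ := exists_bound_of_lt (ι := X) (fun x => p x) hX
  -- block boundaries
  set j : ℕ → ℕ := fun n => Nat.rec 0 (fun _ r => max r (q r) + 1) n with hj
  have hj1 : ∀ n, j (n + 1) = max (j n) (q (j n)) + 1 := fun n => rfl
  have hmono : StrictMono j := strictMono_nat_of_lt_succ (fun n => by
    rw [hj1]
    have := le_max_left (j n) (q (j n))
    omega)
  have hid : ∀ n, n ≤ j n := hmono.id_le
  refine ⟨S, fun m => Nat.findGreatest (fun k => j k ≤ m) m, hS, ?_, ?_⟩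
  · intro k
    refine (Set.finite_lt_nat (j (k + 1))).subset ?_
    intro m hm
    simp only [mem_ofPred_eq] at hm ⊢
    by_contra hcon
    rw [not_lt] at hcon
    have h1 : k + 1 ≤ Nat.findGreatest (fun k => j k ≤ m) m :=
      Nat.le_findGreatest ((hid _).trans hcon) hcon
    omega
  · intro x hx
    obtain ⟨K, hK⟩ := eventually_atTop.1 (hq ⟨x, hx⟩)
    refine ⟨K, fun k hk => ⟨p x (j k), ?_, hpS x hx (j k)⟩⟩
    have h1 : j k ≤ p x (j k) := hp x hx (j k)
    have h2 : p x (j k) < j (k + 1) := by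
      have := hK (j k) (hk.trans (hid k))
      have h3 := le_max_right (j k) (q (j k))
      rw [hj1]
      simp only at this
      omega
    rw [Nat.findGreatest_eq_iff]
    refine ⟨(hid k).trans h1, fun _ => h1, ?_⟩
    intro n hn _
    have : j (k + 1) ≤ j n := hmono.monotone hn
    omega

/-- Products of strong measure zero sets, one of them of size less than `bounding`. -/
theorem SM.prod {α β : Type} [PseudoMetricSpace α] [PseudoMetricSpace β] {X : Set α} {Y : Set β}
    (hX : SM X) (hXc : #X < bounding) (hY : SM Y) : SM (X ×ˢ Y) := by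
  intro ε hε
  obtain ⟨S, κ, hS, hfin, hcov⟩ := hX.block hXc ε hε
  have hδ : ∀ k, ∃ δ > 0, ∀ m, κ m = k → δ ≤ ε m := by
    intro k
    rcases ({m | κ m = k}).eq_empty_or_nonempty with he | hne
    · exact ⟨1, one_pos, fun m hm => absurd (show m ∈ {m | κ m = k} from hm) (by rw [he]; simp)⟩
    · obtain ⟨m, hm, hmin⟩ := (hfin k).exists_minimalFor ε _ hne
      refine ⟨ε m, hε m, fun m' hm' => ?_⟩
      by_contra hcon
      rw [not_le] at hcon
      exact absurd (hmin hm' hcon.le) (not_le.2 hcon)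
  choose δ hδ hδε using hδ
  obtain ⟨T, hT, hTc⟩ := hY.io δ hδ
  refine ⟨fun m => S m ×ˢ T (κ m), ?_, ?_⟩
  · rintro m ⟨x, y⟩ ⟨hx, hy⟩ ⟨x', y'⟩ ⟨hx', hy'⟩
    rw [Prod.dist_eq]
    exact max_lt (hS m x hx x' hx') ((hT _ y hy y' hy').trans_le (hδε _ m rfl))
  · rintro ⟨x, y⟩ ⟨hx, hy⟩
    obtain ⟨K, hK⟩ := hcov x hx
    obtain ⟨k, hk, hyk⟩ := hTc y hy K
    obtain ⟨m, hm, hxm⟩ := hK k hk
    refine mem_iUnion.2 ⟨m, hxm, ?_⟩
    simp only at hyk ⊢
    rwa [hm]

/-- A set of fewer than `bounding` many points of a Polish space lies in a countable union of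
compact sets. -/
theorem exists_compact_cover {α : Type} [TopologicalSpace α] [PolishSpace α] {Z : Set α}
    (hZ : #Z < bounding) : ∃ L : ℕ → Set α, (∀ c, IsCompact (L c)) ∧ Z ⊆ ⋃ c, L c := by
  rcases isEmpty_or_nonempty α with he | hne
  · exact ⟨fun _ => ∅, fun _ => isCompact_empty, fun x _ => (he.false x).elim⟩
  obtain ⟨p, hpc, hps⟩ := PolishSpace.exists_nat_nat_continuous_surjective α
  choose y hy using hps
  obtain ⟨g, hg⟩ := exists_bound_of_lt (ι := Z) (fun z => y z) hZ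
  refine ⟨fun c => p '' (Set.pi univ fun n => Iic (g n + c)), ?_, ?_⟩
  · intro c
    apply IsCompact.image _ hpc
    apply isCompact_univ_pi
    intro n
    exact (Set.finite_Iic _).isCompact
  · intro z hz
    obtain ⟨N, hN⟩ := eventually_atTop.1 (hg ⟨z, hz⟩)
    refine mem_iUnion.2 ⟨∑ k ∈ Finset.range N, y z k, y z, ?_, hy z⟩
    intro n _
    rw [mem_Iic]
    by_cases hn : N ≤ n
    · exact (hN n hn).trans (Nat.le_add_right _ _)
    · have h1 : y z n ≤ ∑ k ∈ Finset.range N, y z k :=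
        Finset.single_le_sum (f := fun k => y z k) (fun _ _ => Nat.zero_le _)
          (Finset.mem_range.2 (not_le.1 hn))
      exact h1.trans (Nat.le_add_left _ _)

/-- Images under maps which become continuous for a finer Polish topology. -/
theorem SM.image_of_bijective {α α' β : Type} [MetricSpace α] [MetricSpace β]
    [TopologicalSpace α'] [PolishSpace α'] (i : α' → α) (hi : Continuous i)
    (hib : Function.Bijective i) (f : α → β) (hf : Continuous (f ∘ i)) {Z : Set α} (hZ : SM Z)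
    (hZc : #Z < bounding) : SM (f '' Z) := by
  have hZ' : #(i ⁻¹' Z) < bounding := by
    have : #(i ⁻¹' Z) ≤ #Z := Cardinal.mk_preimage_of_injective i Z hib.1
    exact lt_of_le_of_lt this hZc
  obtain ⟨L, hL, hZL⟩ := exists_compact_cover hZ'
  have hcov : f '' Z ⊆ ⋃ c, f '' (Z ∩ i '' (L c)) := by
    rintro _ ⟨z, hz, rfl⟩
    obtain ⟨w, rfl⟩ := hib.2 z
    obtain ⟨c, hc⟩ := mem_iUnion.1 (hZL (show w ∈ i ⁻¹' Z from hz))
    exact mem_iUnion.2 ⟨c, i w, ⟨hz, w, hc, rfl⟩, rfl⟩
  refine SM.mono (SM.iUnion fun c => ?_) hcov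
  have hcont : ContinuousOn f (i '' L c) := by
    rw [continuousOn_iff_isClosed]
    intro t ht
    refine ⟨i '' (L c ∩ (f ∘ i) ⁻¹' t), ?_, ?_⟩
    · exact (((hL c).inter_right (ht.preimage hf)).image hi).isClosed
    · ext x
      simp only [mem_inter_iff, mem_preimage, mem_image, Function.comp]
      constructor
      · rintro ⟨h1, y, hy, rfl⟩
        exact ⟨⟨y, ⟨hy, h1⟩, rfl⟩, y, hy, rfl⟩
      · rintro ⟨⟨y, ⟨hy, h1⟩, rfl⟩, -⟩
        exact ⟨h1, y, hy, rfl⟩
  have huc : UniformContinuousOn f (i '' L c) :=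
    ((hL c).image hi).uniformContinuousOn_of_continuous hcont
  exact (hZ.mono inter_subset_left).image (huc.mono inter_subset_right)

/-- Borel images of strong measure zero sets of size less than `bounding`. -/
theorem SM.borel_image {α β : Type} [MetricSpace α] [CompleteSpace α] [SecondCountableTopology α]
    [MeasurableSpace α] [BorelSpace α] [MetricSpace β] [SecondCountableTopology β]
    [MeasurableSpace β] [BorelSpace β] {f : α → β} (hf : Measurable f) {Z : Set α} (hZ : SM Z)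
    (hZc : #Z < bounding) : SM (f '' Z) := by
  obtain ⟨t', ht', hft', hpol⟩ := hf.exists_continuous
  exact @SM.image_of_bijective α α β _ _ t' hpol id (continuous_id_iff_le.2 ht')
    Function.bijective_id f hft' Z hZ hZc

theorem cofSN_lt_bounding_of_le (h : cofSN ≤ ℵ₁) : cofSN < bounding := by
  rcases aleph_one_lt_or with h1 | h1
  · exact lt_of_le_of_lt h h1
  · exact absurd h (not_le.2 h1)

/-- The structure of the ideal if its cofinality is less than the bounding number. -/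
theorem borel_image_of_cof (h : cofSN < bounding) (F : ℝ × ℝ → ℝ) (hF : Measurable F) (X Y : Set ℝ)
    (hX : StrongMeasureZero X) (hY : StrongMeasureZero Y) :
    StrongMeasureZero (F '' (X ×ˢ Y)) := by
  obtain ⟨B, hB, hBc, hBcard⟩ := exists_cof_family
  by_contra hcon
  have hpick : ∀ S : B, ∃ p : ℝ × ℝ, p ∈ X ×ˢ Y ∧ F p ∉ (S : Set ℝ) := by
    intro S
    by_contra hS
    push Not at hS
    apply hcon
    rw [smz_iff]
    refine ((smz_iff _).1 (hB S S.2)).mono ?_
    rintro _ ⟨p, hp, rfl⟩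
    exact hS p hp
  choose p hpXY hpS using hpick
  have hBb : #B < bounding := by
    rw [hBcard]; exact h
  have hX' : SM (range fun S => (p S).1) := by
    refine ((smz_iff _).1 hX).mono ?_
    rintro _ ⟨S, rfl⟩
    exact (hpXY S).1
  have hY' : SM (range fun S => (p S).2) := by
    refine ((smz_iff _).1 hY).mono ?_
    rintro _ ⟨S, rfl⟩
    exact (hpXY S).2
  have hprod : SM (range p) := by
    refine (hX'.prod (lt_of_le_of_lt mk_range_le hBb) hY').mono ?_
    rintro _ ⟨S, rfl⟩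
    exact ⟨⟨S, rfl⟩, ⟨S, rfl⟩⟩
  have himg : StrongMeasureZero (F '' range p) := by
    rw [smz_iff]
    exact SM.borel_image hF hprod (lt_of_le_of_lt mk_range_le hBb)
  obtain ⟨S, hS, hsub⟩ := hBc _ himg
  exact hpS ⟨S, hS⟩ (hsub ⟨_, ⟨⟨S, hS⟩, rfl⟩, rfl⟩)

theorem dominating_of_cof (h : cofSN < bounding) : ∃ X : Set ℝ, StrongMeasureZero X ∧
    ∃ ρ : ℝ → (ℕ → ℕ), Measurable ρ ∧
      ∀ g : ℕ → ℕ, ∃ x ∈ X, ∀ᶠ n in atTop, g n ≤ ρ x n := by
  obtain ⟨B, hB, hBc, hBcard⟩ := exists_cof_family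
  have hR : ¬ Countable ℝ := by
    intro h
    exact absurd (Cardinal.mk_le_aleph0_iff.2 h)
      (by rw [Cardinal.mk_real, not_le]; exact Cardinal.aleph0_lt_continuum)
  have hN : ¬ Countable (ℕ → ℕ) := by
    intro h
    have h1 := Cardinal.mk_le_aleph0_iff.2 h
    rw [← Cardinal.power_def, Cardinal.mk_nat] at h1
    rw [Cardinal.power_self_eq le_rfl] at h1
    exact absurd h1 (not_le.2 (Cardinal.cantor _))
  let e : ℝ ≃ᵐ (ℕ → ℕ) := PolishSpace.measurableEquivOfNotCountable hR hN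
  by_contra hcon
  have hpick : ∀ S : B, ∃ g : ℕ → ℕ, ∀ x ∈ (S : Set ℝ), ¬ ∀ᶠ n in atTop, g n ≤ e x n := by
    intro S
    by_contra hS
    refine hcon ⟨S, hB S S.2, e, e.measurable, fun g => ?_⟩
    by_contra hg
    exact hS ⟨g, fun x hx hxg => hg ⟨x, hx, hxg⟩⟩
  choose g hg using hpick
  obtain ⟨f, hf⟩ := exists_bound_of_lt g (by rw [hBcard]; exact h)
  obtain ⟨S, hS, hsub⟩ := hBc {e.symm f} (by
    rw [smz_iff]; exact SM.of_countable (countable_singleton _))
  apply hg ⟨S, hS⟩ (e.symm f) (hsub rfl)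
  simpa using hf ⟨S, hS⟩

end Pool.Agent.H92.SN
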